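import Mathlib
import Pool.Agent.H388SL.Energy

/-!
# The energy inequality with repeated points
-/

set_option autoImplicit false

open Complex Finset

namespace Pool.Agent.W666.DL

open Pool.Agent.H388SL

/-- the energy inequality, repeated points allowed (recall `log 0 = 0`) -/
theorem energy2 {ι : Type*} (s : Finset ι) (x : ι → ℝ) (hx : ∀ i ∈ s, 0 ≤ x i)
    (z : ι → ℂ) {t : ℝ} (ht0 : 0 ≤ t) (ht1 : t < 1) [DecidableEq ℂ] :
    ∑ i ∈ s, ∑ j ∈ s, x i * x j * Real.log ‖z i - z j‖
      ≤ 2 * (∑ i ∈ s, x i) * (∑ i ∈ s, x i * Real.log (max 1 ‖z i‖))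
        + (∑ i ∈ s, x i) ^ 2 * Real.log (2 / (1 + t))
        + (∑ i ∈ s, ∑ j ∈ s, if z i = z j then x i * x j else 0) * Real.log (1 / (1 - t)) := by
  have hL : 0 ≤ Real.log (2 / (1 + t)) := by
    apply Real.log_nonneg
    rw [le_div_iff₀ (by linarith)]; linarith
  -- pointwise bound
  have hpt : ∀ i ∈ s, ∀ j ∈ s, x i * x j * Real.log ‖z i - z j‖ ≤
      (x i * x j * (Real.log (max 1 ‖z i‖) + Real.log (max 1 ‖z j‖) + Real.log (2 / (1 + t)))
        + x i * x j * Real.log ‖1 - (t : ℂ) * (refl (z i) * starRingEnd ℂ (refl (z j)))‖)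
        + (if z i = z j then x i * x j else 0) * Real.log (1 / (1 - t)) := by
    intro i hi j hj
    have hxx : 0 ≤ x i * x j := mul_nonneg (hx i hi) (hx j hj)
    have hLi : 0 ≤ Real.log (max 1 ‖z i‖) := Real.log_nonneg (le_max_left _ _)
    have hLj : 0 ≤ Real.log (max 1 ‖z j‖) := Real.log_nonneg (le_max_left _ _)
    by_cases hij : z i = z j
    · rw [if_pos hij, ← hij, sub_self, norm_zero, Real.log_zero, mul_zero]
      have h1 : 1 - t ≤ ‖1 - (t : ℂ) * (refl (z i) * starRingEnd ℂ (refl (z i)))‖ := by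
        have h2 : ‖(t : ℂ) * (refl (z i) * starRingEnd ℂ (refl (z i)))‖ ≤ t := by
          rw [norm_mul, norm_mul, RCLike.norm_conj, Complex.norm_real, Real.norm_of_nonneg ht0]
          have h3 : ‖refl (z i)‖ * ‖refl (z i)‖ ≤ 1 :=
            mul_le_one₀ (norm_refl_le _) (norm_nonneg _) (norm_refl_le _)
          nlinarith
        have h4 := norm_sub_norm_le (1:ℂ) ((t : ℂ) * (refl (z i) * starRingEnd ℂ (refl (z i))))
        rw [norm_one] at h4
        linarith
      have h5 : Real.log (1 - t) ≤ Real.log ‖1 - (t : ℂ) * (refl (z i) * starRingEnd ℂ (refl (z i)))‖ :=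
        Real.log_le_log (by linarith) h1
      have h6 : Real.log (1 / (1 - t)) = - Real.log (1 - t) := by
        rw [one_div, Real.log_inv]
      rw [h6]
      have h7 : 0 ≤ x i * x j * (Real.log (max 1 ‖z i‖) + Real.log (max 1 ‖z i‖) + Real.log (2 / (1 + t))) :=
        mul_nonneg hxx (by linarith)
      have h8 : x i * x j * Real.log (1 - t) ≤
          x i * x j * Real.log ‖1 - (t : ℂ) * (refl (z i) * starRingEnd ℂ (refl (z i)))‖ :=
        mul_le_mul_of_nonneg_left h5 hxx
      nlinarith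
    · rw [if_neg hij, zero_mul, add_zero, ← mul_add]
      apply mul_le_mul_of_nonneg_left _ hxx
      have hne : z i - z j ≠ 0 := sub_ne_zero.mpr hij
      have hb : ‖refl (z i) * starRingEnd ℂ (refl (z j))‖ ≤ 1 := by
        rw [norm_mul, RCLike.norm_conj]
        exact mul_le_one₀ (norm_refl_le _) (norm_nonneg _) (norm_refl_le _)
      have h1 := pair_le (z i) (z j)
      have h2 := one_sub_le ht0 ht1 _ hb
      have hmi : 0 < max 1 ‖z i‖ := lt_of_lt_of_le one_pos (le_max_left _ _)
      have hmj : 0 < max 1 ‖z j‖ := lt_of_lt_of_le one_pos (le_max_left _ _)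
      have h3 : ‖z i - z j‖ ≤ max 1 ‖z i‖ * max 1 ‖z j‖ *
          (2 / (1 + t) * ‖1 - (t : ℂ) * (refl (z i) * starRingEnd ℂ (refl (z j)))‖) :=
        h1.trans (mul_le_mul_of_nonneg_left h2 (by positivity))
      have hpos : 0 < ‖z i - z j‖ := norm_pos_iff.mpr hne
      have h2t : 0 < 2 / (1 + t) := by apply div_pos <;> linarith
      have h4 : 0 < ‖1 - (t : ℂ) * (refl (z i) * starRingEnd ℂ (refl (z j)))‖ := by
        rcases (norm_nonneg (1 - (t : ℂ) * (refl (z i) * starRingEnd ℂ (refl (z j))))).lt_or_eq with h | h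
        · exact h
        · rw [← h] at h3
          simp at h3
          exact absurd h3 hne
      calc Real.log ‖z i - z j‖ ≤ Real.log (max 1 ‖z i‖ * max 1 ‖z j‖ *
          (2 / (1 + t) * ‖1 - (t : ℂ) * (refl (z i) * starRingEnd ℂ (refl (z j)))‖)) :=
            Real.log_le_log hpos h3
        _ = _ := by
          rw [Real.log_mul (by positivity) (by positivity), Real.log_mul (by positivity) (by positivity),
            Real.log_mul (by positivity) (by positivity)]
          ring
  have hsum := Finset.sum_le_sum fun i hi => Finset.sum_le_sum fun j hj => hpt i hi j hj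
  simp only [Finset.sum_add_distrib] at hsum
  have hpd := posdef s x (fun i => refl (z i)) (fun i _ => norm_refl_le _) ht0 ht1
  have hpd' : ∑ i ∈ s, ∑ j ∈ s, x i * x j *
      Real.log ‖1 - (t : ℂ) * (refl (z i) * starRingEnd ℂ (refl (z j)))‖ ≤ 0 := by
    refine hpd.trans ?_
    have : 0 ≤ t * ‖∑ i ∈ s, (x i : ℂ) * refl (z i)‖ ^ 2 := by positivity
    linarith
  have e1 : ∑ i ∈ s, ∑ j ∈ s, (if z i = z j then x i * x j else 0) * Real.log (1 / (1 - t))
      = (∑ i ∈ s, ∑ j ∈ s, if z i = z j then x i * x j else 0) * Real.log (1 / (1 - t)) := by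
    rw [Finset.sum_mul]
    refine Finset.sum_congr rfl fun i _ => ?_
    rw [Finset.sum_mul]
  have e2 : ∑ i ∈ s, ∑ j ∈ s, x i * x j * (Real.log (max 1 ‖z i‖) + Real.log (max 1 ‖z j‖) + Real.log (2 / (1 + t)))
      = 2 * (∑ i ∈ s, x i) * (∑ i ∈ s, x i * Real.log (max 1 ‖z i‖))
        + (∑ i ∈ s, x i) ^ 2 * Real.log (2 / (1 + t)) := by
    have e3 : ∀ i ∈ s, ∑ j ∈ s, x i * x j * (Real.log (max 1 ‖z i‖) + Real.log (max 1 ‖z j‖) + Real.log (2 / (1 + t)))
        = x i * Real.log (max 1 ‖z i‖) * (∑ j ∈ s, x j) + x i * (∑ j ∈ s, x j * Real.log (max 1 ‖z j‖))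
          + x i * (∑ j ∈ s, x j) * Real.log (2 / (1 + t)) := by
      intro i _
      rw [Finset.mul_sum, Finset.mul_sum, Finset.mul_sum, Finset.sum_mul, ← Finset.sum_add_distrib,
        ← Finset.sum_add_distrib]
      refine Finset.sum_congr rfl fun j _ => ?_
      ring
    rw [Finset.sum_congr rfl e3, Finset.sum_add_distrib, Finset.sum_add_distrib, ← Finset.sum_mul,
      ← Finset.sum_mul, ← Finset.sum_mul, ← Finset.sum_mul]
    ring
  rw [e1] at hsum
  rw [e2] at hsum
  linarith

end Pool.Agent.W666.DL
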