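import Mathlib
import Pool.Agent.H388SL.DobB
import Pool.Agent.W666.DL.Energy2

/-!
# Conjugates with multiplicity
-/

set_option autoImplicit false

open Finset Polynomial Module IntermediateField

namespace Pool.Agent.W666.DL

open Pool.Agent.H388SL

variable {K : Type*} [Field K] [NumberField K]

/-- the multiplicity of `β`: the degree of `K` over `ℚ(β)` -/
noncomputable def rr (β : K) : ℕ := finrank (adjoin ℚ {β}) K

lemma rr_pos (β : K) : 0 < rr β := finrank_pos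

lemma gen_map (β : K) : algebraMap (adjoin ℚ {β}) K (AdjoinSimple.gen ℚ β) = β :=
  AdjoinSimple.algebraMap_gen ℚ β

lemma gen_int {β : K} (hβ : IsIntegral ℤ β) : IsIntegral ℤ (AdjoinSimple.gen ℚ β) := by
  have h := hβ
  rw [← gen_map β] at h
  exact (isIntegral_algebraMap_iff (algebraMap (adjoin ℚ {β}) K).injective).mp h

lemma minpolyZ_gen (β : K) : minpoly ℤ (AdjoinSimple.gen ℚ β) = minpoly ℤ β := by
  conv_rhs => rw [← gen_map β]
  exact (minpoly.algebraMap_eq (algebraMap (adjoin ℚ {β}) K).injective _).symm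

lemma minpolyQ_gen (β : K) : minpoly ℚ (AdjoinSimple.gen ℚ β) = minpoly ℚ β := by
  conv_rhs => rw [← gen_map β]
  exact (minpoly.algebraMap_eq (algebraMap (adjoin ℚ {β}) K).injective _).symm

lemma rr_mul_natDegree (β : K) : rr β * (minpoly ℚ β).natDegree = finrank ℚ K := by
  have h1 := finrank_mul_finrank ℚ (adjoin ℚ {β}) K
  rw [adjoin.finrank (Algebra.IsIntegral.isIntegral (R := ℚ) β)] at h1
  rw [← h1, mul_comm]; rfl

lemma sum_roots (β : K) (F : ℂ → ℝ) :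
    ∑ σ : K →ₐ[ℚ] ℂ, F (σ β) =
      rr β * ((((minpoly ℚ β).map (algebraMap ℚ ℂ)).roots).map F).sum := by
  rw [sum_embeddings' β F, nsmul_eq_mul]
  congr 1
  have h1 := minpoly_map_eq (CInj_gen β)
  rw [minpolyQ_gen] at h1
  rw [h1, Finset.prod_eq_multiset_prod]
  have e : (Multiset.map (fun τ : (adjoin ℚ {β}) →ₐ[ℚ] ℂ => X - C (τ (AdjoinSimple.gen ℚ β))) Finset.univ.val) =
      Multiset.map (fun a : ℂ => X - C a)
        (Multiset.map (fun τ : (adjoin ℚ {β}) →ₐ[ℚ] ℂ => τ (AdjoinSimple.gen ℚ β)) Finset.univ.val) := by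
    rw [Multiset.map_map]; rfl
  rw [e, Polynomial.roots_multiset_prod_X_sub_C, Multiset.map_map]
  rfl

lemma lam_eq_of_minpoly_eq {β γ : K} (h : minpoly ℚ β = minpoly ℚ γ) : lam β = lam γ := by
  have hr : rr β = rr γ := by
    have h1 := rr_mul_natDegree β
    have h2 := rr_mul_natDegree γ
    rw [← h] at h2
    have h3 : 0 < (minpoly ℚ β).natDegree :=
      minpoly.natDegree_pos (Algebra.IsIntegral.isIntegral (R := ℚ) β)
    exact Nat.eq_of_mul_eq_mul_right h3 (h1.trans h2.symm)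
  unfold lam
  rw [sum_roots β (fun z => Real.log (max 1 ‖z‖)), sum_roots γ (fun z => Real.log (max 1 ‖z‖)), hr, h]

lemma conj_ne' {α : K} (hα : IsIntegral ℤ α) (h0 : α ≠ 0) (hroot : ∀ n : ℕ, 0 < n → α ^ n ≠ 1)
    {p q : ℕ} (hpq : p ≠ q) (σ τ : K →ₐ[ℚ] ℂ) :
    σ (α ^ p) ≠ τ (α ^ q) := by
  intro h
  have h1 : minpoly ℚ (σ (α ^ p)) = minpoly ℚ (α ^ p) := minpoly.algHom_eq σ σ.injective _
  have h2 : minpoly ℚ (τ (α ^ q)) = minpoly ℚ (α ^ q) := minpoly.algHom_eq τ τ.injective _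
  have h3 := lam_eq_of_minpoly_eq (show minpoly ℚ (α ^ p) = minpoly ℚ (α ^ q) by rw [← h1, ← h2, h])
  rw [lam_pow, lam_pow] at h3
  have h4 := lam_pos hα h0 hroot
  have h5 : (p : ℝ) = q := mul_right_cancel₀ h4.ne' h3
  exact hpq (by exact_mod_cast h5)

/-- logarithm of the absolute norm -/
noncomputable def NL (w : K) : ℝ := ∑ σ : K →ₐ[ℚ] ℂ, Real.log ‖σ w‖

lemma NL_nonneg {w : K} (hw : IsIntegral ℤ w) (h0 : w ≠ 0) : 0 ≤ NL w := by
  have h1 := Real.log_nonneg (one_le_prod_norm hw h0)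
  rw [Real.log_prod] at h1
  · exact h1
  · intro σ _
    exact norm_ne_zero_iff.mpr ((map_ne_zero σ).mpr h0)

lemma NL_mul {v w : K} (hv : v ≠ 0) (hw : w ≠ 0) : NL (v * w) = NL v + NL w := by
  unfold NL
  rw [← Finset.sum_add_distrib]
  refine Finset.sum_congr rfl fun σ _ => ?_
  rw [map_mul, norm_mul, Real.log_mul]
  · exact norm_ne_zero_iff.mpr ((map_ne_zero σ).mpr hv)
  · exact norm_ne_zero_iff.mpr ((map_ne_zero σ).mpr hw)

lemma NL_pow (v : K) (n : ℕ) : NL (v ^ n) = n * NL v := by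
  unfold NL
  rw [Finset.mul_sum]
  refine Finset.sum_congr rfl fun σ _ => ?_
  rw [map_pow, norm_pow, Real.log_pow]

lemma NL_natCast (n : ℕ) : NL (n : K) = finrank ℚ K * Real.log n := by
  unfold NL
  simp_rw [map_natCast, Complex.norm_natCast]
  rw [Finset.sum_const, Finset.card_univ, AlgHom.card, nsmul_eq_mul]

lemma sum_log_sub {γ : K} (hγ : IsIntegral ℤ γ) (x : ℂ) (hx : ∀ τ : K →ₐ[ℚ] ℂ, x ≠ τ γ) :
    ∑ τ : K →ₐ[ℚ] ℂ, Real.log ‖x - τ γ‖ = rr γ * Real.log ‖aeval x (minpoly ℤ γ)‖ := by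
  rw [sum_embeddings' γ (fun z => Real.log ‖x - z‖), nsmul_eq_mul, rr]
  congr 1
  rw [← minpolyZ_gen, aeval_minpolyZ_eq (gen_int hγ) (CInj_gen γ), norm_prod, Real.log_prod]
  intro τ _ h
  rw [norm_eq_zero, sub_eq_zero] at h
  -- extend τ to K
  obtain ⟨σ, hσ⟩ : ∃ σ : K →ₐ[ℚ] ℂ, σ γ = τ (AdjoinSimple.gen ℚ γ) := by
    let _ : Algebra (adjoin ℚ {γ}) ℂ := τ.toRingHom.toAlgebra
    have : IsScalarTower ℚ (adjoin ℚ {γ}) ℂ := IsScalarTower.of_algebraMap_eq fun x => (τ.commutes x).symm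
    let σ' : K →ₐ[adjoin ℚ {γ}] ℂ := IsAlgClosed.lift
    refine ⟨σ'.restrictScalars ℚ, ?_⟩
    have h2 := σ'.commutes (AdjoinSimple.gen ℚ γ)
    rw [gen_map] at h2
    exact h2
  exact hx σ (h.trans hσ.symm)

lemma cross_nonneg {β γ : K} (hβ : IsIntegral ℤ β) (hγ : IsIntegral ℤ γ)
    (hne : ∀ σ τ : K →ₐ[ℚ] ℂ, σ β ≠ τ γ) :
    0 ≤ ∑ σ : K →ₐ[ℚ] ℂ, ∑ τ : K →ₐ[ℚ] ℂ, Real.log ‖σ β - τ γ‖ := by
  have e : ∑ σ : K →ₐ[ℚ] ℂ, ∑ τ : K →ₐ[ℚ] ℂ, Real.log ‖σ β - τ γ‖ =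
      rr γ * NL (aeval β (minpoly ℤ γ)) := by
    rw [NL, Finset.mul_sum]
    refine Finset.sum_congr rfl fun σ _ => ?_
    rw [sum_log_sub hγ (σ β) (hne σ), map_aevalZ]
  rw [e]
  apply mul_nonneg (Nat.cast_nonneg _)
  apply NL_nonneg (isIntegral_aevalZ hβ _)
  intro h0
  obtain ⟨σ⟩ : Nonempty (K →ₐ[ℚ] ℂ) := ⟨IsAlgClosed.lift⟩
  have h1 : aeval (σ β) (minpoly ℤ γ) = 0 := by rw [← map_aevalZ, h0, map_zero]
  have h2 := aeval_minpolyZ_eq (gen_int hγ) (CInj_gen γ) (σ β)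
  rw [minpolyZ_gen, h1] at h2
  obtain ⟨τ, _, hτ⟩ := Finset.prod_eq_zero_iff.mp h2.symm
  obtain ⟨ρ, hρ⟩ : ∃ ρ : K →ₐ[ℚ] ℂ, ρ γ = τ (AdjoinSimple.gen ℚ γ) := by
    let _ : Algebra (adjoin ℚ {γ}) ℂ := τ.toRingHom.toAlgebra
    have : IsScalarTower ℚ (adjoin ℚ {γ}) ℂ := IsScalarTower.of_algebraMap_eq fun x => (τ.commutes x).symm
    let σ' : K →ₐ[adjoin ℚ {γ}] ℂ := IsAlgClosed.lift
    refine ⟨σ'.restrictScalars ℚ, ?_⟩
    have h2 := σ'.commutes (AdjoinSimple.gen ℚ γ)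
    rw [gen_map] at h2
    exact h2
  exact hne σ ρ ((sub_eq_zero.mp hτ).trans hρ.symm)

/-- the derivative of the minimal polynomial at a conjugate -/
lemma prod_erase_eq [DecidableEq (K →ₐ[ℚ] ℂ)] {β : K} (hβ : IsIntegral ℤ β) (hc : CInj β)
    (σ : K →ₐ[ℚ] ℂ) : σ (aeval β (derivative (minpoly ℤ β))) =
      ∏ τ ∈ Finset.univ.erase σ, (σ β - τ β) := by
  rw [map_aevalZ]
  have h1 : (derivative (minpoly ℤ β)).map (algebraMap ℤ ℂ) =
      derivative (∏ τ : K →ₐ[ℚ] ℂ, (X - C (τ β))) := by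
    rw [← Polynomial.derivative_map, ← minpoly_map_eq hc,
      minpoly.isIntegrallyClosed_eq_field_fractions' ℚ hβ, Polynomial.map_map]
    rfl
  rw [Polynomial.aeval_def, ← Polynomial.eval_map, h1, Polynomial.derivative_prod_finset,
    Polynomial.eval_finsetSum]
  rw [Finset.sum_eq_single σ]
  · rw [Polynomial.eval_mul, Polynomial.eval_prod]
    simp
  · intro τ _ hτ
    rw [Polynomial.eval_mul, Polynomial.eval_prod]
    rw [Finset.prod_eq_zero (i := σ)]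
    · simp
    · simp [Ne.symm hτ]
    · simp
  · simp

/-- one row of the self-energy, distinct conjugates -/
lemma row_self {β : K} (hβ : IsIntegral ℤ β) (hc : CInj β) (σ : K →ₐ[ℚ] ℂ) :
    ∑ τ : K →ₐ[ℚ] ℂ, Real.log ‖σ β - τ β‖ =
      Real.log ‖σ (aeval β (derivative (minpoly ℤ β)))‖ := by
  classical
  rw [prod_erase_eq hβ hc, norm_prod, Real.log_prod]
  · rw [← Finset.add_sum_erase _ _ (Finset.mem_univ σ), sub_self, norm_zero, Real.log_zero, zero_add]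
  · intro τ hτ h
    exact (Finset.ne_of_mem_erase hτ) (hc (sub_eq_zero.mp (norm_eq_zero.mp h))).symm

/-- self-energy -/
lemma self_energy {β : K} (hβ : IsIntegral ℤ β) :
    ∑ σ : K →ₐ[ℚ] ℂ, ∑ τ : K →ₐ[ℚ] ℂ, Real.log ‖σ β - τ β‖ =
      rr β * NL (aeval β (derivative (minpoly ℤ β))) := by
  rw [NL, Finset.mul_sum]
  refine Finset.sum_congr rfl fun σ _ => ?_
  rw [sum_embeddings' β (fun z => Real.log ‖σ β - z‖), nsmul_eq_mul, rr]
  congr 1
  set σL : (adjoin ℚ {β}) →ₐ[ℚ] ℂ := σ.comp (adjoin ℚ {β}).val with hσL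
  have h1 : σ β = σL (AdjoinSimple.gen ℚ β) := rfl
  have h2 := row_self (gen_int hβ) (CInj_gen β) σL
  rw [← h1] at h2
  rw [h2, map_aevalZ, map_aevalZ, ← h1, minpolyZ_gen]

/-- multiplicities -/
lemma count_eq [DecidableEq ℂ] (β : K) (σ : K →ₐ[ℚ] ℂ) :
    ∑ τ : K →ₐ[ℚ] ℂ, (if σ β = τ β then (1:ℝ) else 0) = rr β := by
  classical
  rw [sum_embeddings' β (fun z => if σ β = z then (1:ℝ) else 0), nsmul_eq_mul, rr]
  set σL : (adjoin ℚ {β}) →ₐ[ℚ] ℂ := σ.comp (adjoin ℚ {β}).val with hσL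
  have h1 : σ β = σL (AdjoinSimple.gen ℚ β) := rfl
  have h2 : ∑ τ : (adjoin ℚ {β}) →ₐ[ℚ] ℂ, (if σ β = τ (AdjoinSimple.gen ℚ β) then (1:ℝ) else 0) = 1 := by
    rw [Finset.sum_eq_single σL]
    · rw [if_pos h1]
    · intro τ _ hτ
      rw [if_neg]
      rw [h1]
      intro h
      exact hτ (CInj_gen β h).symm
    · simp
  rw [h2, mul_one]

lemma deriv_ne_zero {β : K} (hβ : IsIntegral ℤ β) : aeval β (derivative (minpoly ℤ β)) ≠ 0 := by
  have h1 : (minpoly ℚ β).Separable := Algebra.IsSeparable.isSeparable ℚ β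
  have h2 := h1.aeval_derivative_ne_zero (x := β) (minpoly.aeval ℚ β)
  rw [minpoly.isIntegrallyClosed_eq_field_fractions' ℚ hβ, Polynomial.derivative_map,
    Polynomial.aeval_map_algebraMap] at h2
  exact h2

/-- discriminants of powers -/
lemma disc_pow {α : K} (hα : IsIntegral ℤ α) (h0 : α ≠ 0) (hunit : NL α = 0) {p : ℕ} (hp : 0 < p) :
    NL (aeval α (derivative (minpoly ℤ α))) - finrank ℚ K * Real.log p ≤
      NL (aeval (α ^ p) (derivative (minpoly ℤ (α ^ p)))) := by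
  have hβ := hα.pow p
  have h1 : aeval α (expand ℤ p (minpoly ℤ (α ^ p))) = 0 := by
    rw [Polynomial.expand_aeval, minpoly.aeval]
  obtain ⟨h, hh⟩ := minpoly.isIntegrallyClosed_dvd hα h1
  have h2 := congrArg (fun P => aeval α (derivative P)) hh
  simp only [Polynomial.derivative_mul, map_add, map_mul, minpoly.aeval, zero_mul, add_zero,
    Polynomial.derivative_expand, Polynomial.expand_aeval, map_natCast, map_pow, Polynomial.aeval_X] at h2
  have hp' : (p : K) ≠ 0 := by exact_mod_cast hp.ne'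
  have hd := deriv_ne_zero hα
  have hd' := deriv_ne_zero hβ
  have hne : aeval (α ^ p) (derivative (minpoly ℤ (α ^ p))) * ((p : K) * α ^ (p - 1)) ≠ 0 :=
    mul_ne_zero hd' (mul_ne_zero hp' (pow_ne_zero _ h0))
  have hh0 : aeval α h ≠ 0 := by
    intro h3
    rw [h3, mul_zero] at h2
    exact hne h2
  have h4 := congrArg NL h2
  rw [NL_mul hd' (mul_ne_zero hp' (pow_ne_zero _ h0)), NL_mul hp' (pow_ne_zero _ h0),
    NL_mul hd hh0, NL_natCast, NL_pow, hunit, mul_zero, add_zero] at h4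
  have h5 := NL_nonneg (isIntegral_aevalZ hα h) hh0
  linarith

lemma rr_le {α : K} (hc : CInj α) {p : ℕ} (hp : 0 < p) : rr (α ^ p) ≤ p := by
  classical
  obtain ⟨σ⟩ : Nonempty (K →ₐ[ℚ] ℂ) := ⟨IsAlgClosed.lift⟩
  have h1 := count_eq (α ^ p) σ
  rw [Finset.sum_boole] at h1
  have h2 : (Finset.univ.filter fun τ : K →ₐ[ℚ] ℂ => σ (α ^ p) = τ (α ^ p)).card = rr (α ^ p) := by
    exact_mod_cast h1
  rw [← h2]
  have h3 : (Finset.univ.filter fun τ : K →ₐ[ℚ] ℂ => σ (α ^ p) = τ (α ^ p)).card ≤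
      (nthRoots p ((σ α) ^ p)).toFinset.card := by
    apply Finset.card_le_card_of_injOn (fun τ => τ α)
    · intro τ hτ
      simp only [Finset.coe_filter, Finset.mem_univ, true_and, Set.mem_ofPred_eq, map_pow] at hτ
      simp only [Finset.mem_coe, Multiset.mem_toFinset, mem_nthRoots hp]
      exact hτ.symm
    · intro τ _ τ' _ h
      exact hc h
  exact h3.trans ((Multiset.toFinset_card_le _).trans (card_nthRoots _ _))

end Pool.Agent.W666.DL
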