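import Mathlib
import Pool.Agent.W666.DL.Field2

/-!
# The energy inequality for `α` and its prime powers, with the discriminant
-/

set_option autoImplicit false

open Finset Polynomial Module IntermediateField

namespace Pool.Agent.W666.DL

open Pool.Agent.H388SL

variable {K : Type*} [Field K] [NumberField K]

lemma rr_one {β : K} (hc : CInj β) : rr β = 1 := by
  classical
  obtain ⟨σ⟩ : Nonempty (K →ₐ[ℚ] ℂ) := ⟨IsAlgClosed.lift⟩
  have h1 := count_eq β σ
  rw [Finset.sum_eq_single σ] at h1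
  · rw [if_pos rfl] at h1
    exact_mod_cast h1.symm
  · intro τ _ hτ
    rw [if_neg]
    intro h
    exact hτ (hc h).symm
  · simp

/-- mutual energy -/
noncomputable def II (β γ : K) : ℝ :=
  ∑ σ : K →ₐ[ℚ] ℂ, ∑ τ : K →ₐ[ℚ] ℂ, Real.log ‖σ β - τ γ‖

lemma II_comm (β γ : K) : II β γ = II γ β := by
  unfold II
  rw [Finset.sum_comm]
  refine Finset.sum_congr rfl fun σ _ => Finset.sum_congr rfl fun τ _ => ?_
  rw [norm_sub_rev]

lemma final_arith {A D d S U X lm T L1 W ln ld lδ : ℝ}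
    (hlow : A ^ 2 * D + 2 * A * d * S + (U * D - d * S) ≤ X)
    (hE : X ≤ 2 * (d * (A + U)) * ((A + T) * lm) + (d * (A + U)) ^ 2 * L1 + d * (A ^ 2 + U) * (ln + ld))
    (h7 : (d * (A + U)) ^ 2 * L1 ≤ d * W)
    (h8 : (A ^ 2 + U) * (d * (lδ + ld)) ≤ (A ^ 2 + U) * D) :
    d * (2 * A * S) ≤ d * (2 * (A + U) * (A + T) * lm + W + (A ^ 2 + U) * (ln - lδ) + S) := by
  linarith

/-- the main inequality -/
theorem disc_ineq {α : K} (hα : IsIntegral ℤ α) (h0 : α ≠ 0) (hroot : ∀ n : ℕ, 0 < n → α ^ n ≠ 1)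
    (hc : CInj α) (hunit : NL α = 0) (P : Finset ℕ) (hP : ∀ p ∈ P, p.Prime)
    (u : ℕ → ℝ) (hu : ∀ p ∈ P, u p = 1 / (rr (α ^ p) : ℝ))
    {A : ℝ} (hA : 0 ≤ A) {n δ : ℝ} (hn : 1 ≤ n) (hδ0 : 0 < δ)
    (hD : finrank ℚ K * Real.log (δ * finrank ℚ K) ≤ NL (aeval α (derivative (minpoly ℤ α)))) :
    2 * A * ∑ p ∈ P, u p * Real.log p ≤
      2 * (A + ∑ p ∈ P, u p) * (A + ∑ p ∈ P, u p * p) * lam α
        + (A + ∑ p ∈ P, u p) ^ 2 / n + (A ^ 2 + ∑ p ∈ P, u p) * Real.log (n / δ)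
        + ∑ p ∈ P, u p * Real.log p := by
  classical
  set d := finrank ℚ K with hd
  have hd0 : 0 < d := finrank_pos
  have hd1 : (1:ℝ) ≤ d := by exact_mod_cast hd0
  have hcard : Fintype.card (K →ₐ[ℚ] ℂ) = d := AlgHom.card ℚ K ℂ
  have h1P : 1 ∉ P := fun h => Nat.not_prime_one (hP 1 h)
  have hu0 : ∀ p ∈ P, 0 ≤ u p := by
    intro p hp
    rw [hu p hp]; positivity
  have hur : ∀ p ∈ P, u p * (rr (α ^ p) : ℝ) = 1 := by
    intro p hp
    have : (rr (α ^ p) : ℝ) ≠ 0 := by exact_mod_cast (rr_pos (α ^ p)).ne'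
    rw [hu p hp]; field_simp
  set Q : Finset ℕ := insert 1 P with hQ
  set w : ℕ → ℝ := fun p => if p = 1 then A else u p with hw
  have hw1 : w 1 = A := by simp [hw]
  have hwP : ∀ p ∈ P, w p = u p := by
    intro p hp
    rw [hw]; dsimp only; rw [if_neg (hP p hp).ne_one]
  have hw0 : ∀ p ∈ Q, 0 ≤ w p := by
    intro p hp
    rw [hQ, Finset.mem_insert] at hp
    rcases hp with rfl | hp
    · rw [hw1]; exact hA
    · rw [hwP p hp]; exact hu0 p hp
  set x : ℕ × (K →ₐ[ℚ] ℂ) → ℝ := fun i => w i.1 with hx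
  set z : ℕ × (K →ₐ[ℚ] ℂ) → ℂ := fun i => i.2 (α ^ i.1) with hz
  set s : Finset (ℕ × (K →ₐ[ℚ] ℂ)) := Q ×ˢ Finset.univ with hs
  have hx0 : ∀ i ∈ s, 0 ≤ x i := by
    intro i hi
    rw [hs, Finset.mem_product] at hi
    exact hw0 _ hi.1
  set N : ℝ := n * d with hN
  have hN1 : 1 ≤ N := by nlinarith
  have hN0 : 0 < N := by linarith
  have ht0 : 0 ≤ 1 - 1 / N := by
    rw [sub_nonneg, div_le_one hN0]; exact hN1
  have ht1 : 1 - 1 / N < 1 := by
    have : 0 < 1 / N := by positivity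
    linarith
  have hE := energy2 s x hx0 z ht0 ht1
  have hsumQ : ∀ F : ℕ → ℝ, ∑ p ∈ Q, F p = F 1 + ∑ p ∈ P, F p := fun F => by
    rw [hQ, Finset.sum_insert h1P]
  -- left side
  have hLHS : ∑ i ∈ s, ∑ j ∈ s, x i * x j * Real.log ‖z i - z j‖
      = ∑ p ∈ Q, ∑ q ∈ Q, w p * w q * II (α ^ p) (α ^ q) := by
    rw [hs, Finset.sum_product]
    refine Finset.sum_congr rfl fun p _ => ?_
    simp_rw [Finset.sum_product]
    rw [Finset.sum_comm]
    refine Finset.sum_congr rfl fun q _ => ?_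
    rw [II, Finset.mul_sum]
    refine Finset.sum_congr rfl fun σ _ => ?_
    rw [Finset.mul_sum]
  have hIcross : ∀ p q : ℕ, p ≠ q → 0 ≤ II (α ^ p) (α ^ q) := fun p q hpq =>
    cross_nonneg (hα.pow p) (hα.pow q) (conj_ne' hα h0 hroot hpq)
  have hIp1 : ∀ p ∈ P, d * Real.log p ≤ II (α ^ p) (α ^ 1) := by
    intro p hp
    have hpp := hP p hp
    have hne : ∀ σ τ : K →ₐ[ℚ] ℂ, σ (α ^ p) ≠ τ α := by
      intro σ τ
      have := conj_ne' hα h0 hroot hpp.ne_one σ τ
      rwa [pow_one] at this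
    have h1 := pow_le_frob hα hc p hpp hne
    have hp0 : (0:ℝ) < p := by exact_mod_cast hpp.pos
    have h2 := Real.log_le_log (by positivity) h1
    rw [Real.log_pow, Real.log_prod] at h2
    · refine h2.trans (le_of_eq ?_)
      rw [II]
      refine Finset.sum_congr rfl fun σ _ => ?_
      rw [Real.log_prod, pow_one]
      intro τ _ h
      exact hne σ τ (sub_eq_zero.mp (norm_eq_zero.mp h))
    · intro σ _ h
      obtain ⟨τ, hτ, h⟩ := Finset.prod_eq_zero_iff.mp h
      exact hne σ τ (sub_eq_zero.mp (norm_eq_zero.mp h))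
  set D : ℝ := NL (aeval α (derivative (minpoly ℤ α))) with hDdef
  have hI11 : II (α ^ 1) (α ^ 1) = D := by
    rw [pow_one]
    have := self_energy hα
    rw [rr_one hc, Nat.cast_one, one_mul] at this
    exact this
  have hIpp : ∀ p ∈ P, rr (α ^ p) * (D - d * Real.log p) ≤ II (α ^ p) (α ^ p) := by
    intro p hp
    have h1 := self_energy (hα.pow p)
    have h2 := disc_pow hα h0 hunit (hP p hp).pos
    have h3 : II (α ^ p) (α ^ p) = rr (α ^ p) * NL (aeval (α ^ p) (derivative (minpoly ℤ (α ^ p)))) := h1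
    rw [h3]
    exact mul_le_mul_of_nonneg_left h2 (Nat.cast_nonneg _)
  have hlow : A ^ 2 * D + 2 * A * d * ∑ p ∈ P, u p * Real.log p + ∑ p ∈ P, u p * (D - d * Real.log p) ≤
      ∑ p ∈ Q, ∑ q ∈ Q, w p * w q * II (α ^ p) (α ^ q) := by
    rw [hsumQ, hsumQ]
    have e2 : ∀ p, ∑ q ∈ Q, w p * w q * II (α ^ p) (α ^ q) =
        w p * w 1 * II (α ^ p) (α ^ 1) + ∑ q ∈ P, w p * w q * II (α ^ p) (α ^ q) := fun p => hsumQ _
    simp_rw [e2]
    rw [Finset.sum_add_distrib, hw1, hI11]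
    have i2 : ∑ p ∈ P, A * u p * (d * Real.log p) ≤ ∑ q ∈ P, A * w q * II (α ^ 1) (α ^ q) := by
      refine Finset.sum_le_sum fun p hp => ?_
      rw [hwP p hp, II_comm]
      exact mul_le_mul_of_nonneg_left (hIp1 p hp) (mul_nonneg hA (hu0 p hp))
    have i3 : ∑ p ∈ P, A * u p * (d * Real.log p) ≤ ∑ p ∈ P, w p * A * II (α ^ p) (α ^ 1) := by
      refine Finset.sum_le_sum fun p hp => ?_
      rw [hwP p hp, mul_comm (u p) A]
      exact mul_le_mul_of_nonneg_left (hIp1 p hp) (mul_nonneg hA (hu0 p hp))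
    have i4 : ∑ p ∈ P, u p * (D - d * Real.log p) ≤ ∑ p ∈ P, ∑ q ∈ P, w p * w q * II (α ^ p) (α ^ q) := by
      refine Finset.sum_le_sum fun p hp => ?_
      have h1 : w p * w p * II (α ^ p) (α ^ p) ≤ ∑ q ∈ P, w p * w q * II (α ^ p) (α ^ q) := by
        rw [← Finset.add_sum_erase _ _ hp]
        have : 0 ≤ ∑ q ∈ P.erase p, w p * w q * II (α ^ p) (α ^ q) := by
          refine Finset.sum_nonneg fun q hq => ?_
          have hq' := Finset.mem_of_mem_erase hq
          exact mul_nonneg (mul_nonneg (by rw [hwP p hp]; exact hu0 p hp)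
            (by rw [hwP q hq']; exact hu0 q hq')) (hIcross p q (Finset.ne_of_mem_erase hq).symm)
        linarith
      refine le_trans ?_ h1
      rw [hwP p hp]
      calc u p * (D - d * Real.log p) = u p * u p * (rr (α ^ p) * (D - d * Real.log p)) := by
            calc u p * (D - d * Real.log p) = u p * (u p * (rr (α ^ p) : ℝ)) * (D - d * Real.log p) := by
                  rw [hur p hp]; ring
              _ = _ := by ring
        _ ≤ _ := mul_le_mul_of_nonneg_left (hIpp p hp) (mul_nonneg (hu0 p hp) (hu0 p hp))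
    have e3 : ∑ p ∈ P, A * u p * (d * Real.log p) = A * d * ∑ p ∈ P, u p * Real.log p := by
      rw [Finset.mul_sum]
      refine Finset.sum_congr rfl fun p _ => ?_
      ring
    rw [e3] at i2 i3
    nlinarith
  -- right side
  have r1 : ∑ i ∈ s, x i = d * (A + ∑ p ∈ P, u p) := by
    rw [hs, Finset.sum_product]
    have : ∀ p, ∑ σ : K →ₐ[ℚ] ℂ, x (p, σ) = d * w p := by
      intro p
      simp [hx, hcard]
    simp_rw [this]
    rw [hsumQ, hw1, Finset.sum_congr rfl fun p hp => by rw [hwP p hp], ← Finset.mul_sum]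
    ring
  have r3 : ∑ i ∈ s, x i * Real.log (max 1 ‖z i‖) = (A + ∑ p ∈ P, u p * p) * lam α := by
    rw [hs, Finset.sum_product]
    have : ∀ p, ∑ σ : K →ₐ[ℚ] ℂ, x (p, σ) * Real.log (max 1 ‖z (p, σ)‖) = w p * (p * lam α) := by
      intro p
      rw [← lam_pow, lam, Finset.mul_sum]
    simp_rw [this]
    rw [hsumQ, hw1, Finset.sum_congr rfl fun p hp => by rw [hwP p hp, ← mul_assoc], ← Finset.sum_mul]
    push_cast
    ring
  have r2 : ∑ i ∈ s, ∑ j ∈ s, (if z i = z j then x i * x j else 0) = d * (A ^ 2 + ∑ p ∈ P, u p) := by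
    rw [hs, Finset.sum_product]
    have h1 : ∀ p ∈ Q, ∑ σ : K →ₐ[ℚ] ℂ, ∑ j ∈ Q ×ˢ (Finset.univ : Finset (K →ₐ[ℚ] ℂ)),
        (if z (p, σ) = z j then x (p, σ) * x j else 0) = d * (w p * w p * rr (α ^ p)) := by
      intro p hp
      have h2 : ∀ σ : K →ₐ[ℚ] ℂ, ∑ j ∈ Q ×ˢ (Finset.univ : Finset (K →ₐ[ℚ] ℂ)),
        (if z (p, σ) = z j then x (p, σ) * x j else 0) = w p * w p * rr (α ^ p) := by
        intro σ
        rw [Finset.sum_product, Finset.sum_eq_single p]
        · rw [← count_eq (α ^ p) σ, Finset.mul_sum]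
          refine Finset.sum_congr rfl fun τ _ => ?_
          change (if σ (α ^ p) = τ (α ^ p) then w p * w p else 0) =
            w p * w p * (if σ (α ^ p) = τ (α ^ p) then 1 else 0)
          split_ifs
          · rw [mul_one]
          · rw [mul_zero]
        · intro q _ hqp
          refine Finset.sum_eq_zero fun τ _ => ?_
          rw [if_neg]
          exact conj_ne' hα h0 hroot hqp.symm σ τ
        · intro h; exact absurd hp h
      simp_rw [h2]
      rw [Finset.sum_const, Finset.card_univ, hcard, nsmul_eq_mul]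
    rw [Finset.sum_congr rfl h1, hsumQ, hw1, pow_one, rr_one hc]
    have h3 : ∀ p ∈ P, (d:ℝ) * (w p * w p * rr (α ^ p)) = d * u p := by
      intro p hp
      rw [hwP p hp, mul_assoc, hur p hp, mul_one]
    rw [Finset.sum_congr rfl h3, ← Finset.mul_sum]
    push_cast
    ring
  rw [hLHS, r1, r3, r2] at hE
  have e1 : 1 / (1 - (1 - 1 / N)) = N := by
    field_simp; ring
  rw [e1] at hE
  have e2 : Real.log (2 / (1 + (1 - 1 / N))) ≤ 1 / N := by
    have h1 : 1 + (1 - 1 / N) = (2 * N - 1) / N := by field_simp; ring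
    have h2 : 2 / (1 + (1 - 1 / N)) = 1 + 1 / (2 * N - 1) := by
      rw [h1]
      have : 2 * N - 1 ≠ 0 := by nlinarith
      field_simp; ring
    rw [h2]
    have h3 : 0 < 1 / (2 * N - 1) := by apply div_pos one_pos; nlinarith
    have h4 := Real.log_le_sub_one_of_pos (show 0 < 1 + 1 / (2 * N - 1) by linarith)
    have h5 : 1 / (2 * N - 1) ≤ 1 / N := by
      apply one_div_le_one_div_of_le hN0; linarith
    linarith
  set U := ∑ p ∈ P, u p with hU
  set S := ∑ p ∈ P, u p * Real.log p with hS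
  set T := ∑ p ∈ P, u p * (p:ℝ) with hT
  have hU0 : 0 ≤ U := Finset.sum_nonneg hu0
  have h7 : ((d : ℝ) * (A + U)) ^ 2 * Real.log (2 / (1 + (1 - 1 / N))) ≤
      ((d : ℝ) * (A + U)) ^ 2 * (1 / N) := mul_le_mul_of_nonneg_left e2 (by positivity)
  have e4 : ∑ p ∈ P, u p * (D - d * Real.log p) = U * D - d * S := by
    rw [hU, hS, Finset.sum_mul, Finset.mul_sum, ← Finset.sum_sub_distrib]
    refine Finset.sum_congr rfl fun p _ => ?_
    ring
  rw [e4] at hlow
  have hd' : (0:ℝ) < d := by exact_mod_cast hd0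
  have hlogN : Real.log N = Real.log n + Real.log d := by
    rw [hN, Real.log_mul (by linarith) hd'.ne']
  have hlogd : Real.log (δ * d) = Real.log δ + Real.log d := by
    rw [Real.log_mul hδ0.ne' hd'.ne']
  have hlogn : Real.log (n / δ) = Real.log n - Real.log δ := by
    rw [Real.log_div (by linarith) hδ0.ne']
  have h8 : (A ^ 2 + U) * (d * Real.log (δ * d)) ≤ (A ^ 2 + U) * D :=
    mul_le_mul_of_nonneg_left hD (by positivity)
  rw [hlogd] at h8
  rw [hlogN] at hE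
  rw [hlogn]
  have e5 : ((d : ℝ) * (A + U)) ^ 2 * (1 / N) = d * ((A + U) ^ 2 / n) := by
    rw [hN]
    have : n ≠ 0 := by linarith
    field_simp
  rw [e5] at h7
  exact le_of_mul_le_mul_left (final_arith hlow hE h7 h8) hd'

end Pool.Agent.W666.DL
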