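import Mathlib
import Pool.Agent.H388SL.DobC

/-!
# Sums over primes and the two real-variable endings
-/

set_option autoImplicit false

open Finset

namespace Pool.Agent.W666.DL

open Pool.Agent.H388SL

/-- primes in `(a, b]` -/
def PP (a b : ℕ) : Finset ℕ := (Finset.Ioc a b).filter Nat.Prime

lemma mem_PP {a b p : ℕ} : p ∈ PP a b ↔ (a < p ∧ p ≤ b) ∧ p.Prime := by
  rw [PP, Finset.mem_filter, Finset.mem_Ioc]

lemma sum_PP_union {a b c : ℕ} (hab : a ≤ b) (hbc : b ≤ c) (F : ℕ → ℝ) :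
    ∑ p ∈ PP a c, F p = ∑ p ∈ PP a b, F p + ∑ p ∈ PP b c, F p := by
  have hd : Disjoint (PP a b) (PP b c) := by
    rw [Finset.disjoint_left]
    intro p hp hq
    rw [mem_PP] at hp hq
    omega
  rw [← Finset.sum_union hd]
  congr 1
  ext p
  rw [Finset.mem_union, mem_PP, mem_PP, mem_PP]
  constructor
  · rintro ⟨h1, h2⟩
    rcases le_or_gt p b with h | h
    · exact Or.inl ⟨⟨h1.1, h⟩, h2⟩
    · exact Or.inr ⟨⟨h, h1.2⟩, h2⟩
  · rintro (⟨h1, h2⟩ | ⟨h1, h2⟩)
    · exact ⟨⟨h1.1, h1.2.trans hbc⟩, h2⟩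
    · exact ⟨⟨lt_of_le_of_lt hab h1.1, h1.2⟩, h2⟩

lemma theta_eq (n : ℕ) : Chebyshev.theta n = ∑ p ∈ PP 0 n, Real.log p := by
  rw [Chebyshev.theta, Nat.floor_natCast]; rfl

lemma block {Y0 : ℕ} (hY : ∀ n : ℕ, Y0 ≤ n → 1 + 4 * Real.log (2 * n) ≤ Real.sqrt n / 8)
    (x : ℕ) (hx : Y0 ≤ x) (hx1 : 1 ≤ x) :
    (0.15 : ℝ) ≤ ∑ p ∈ PP x (4 * x), Real.log p / p := by
  have h1 := theta_half hY (4 * x) (by omega) (by omega)
  have h2 := Chebyshev.theta_le_log4_mul_x (x := (x:ℝ)) (Nat.cast_nonneg x)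
  have h3 := sum_PP_union (a := 0) (b := x) (c := 4 * x) (by omega) (by omega) (fun p => Real.log p)
  have e1 := theta_eq (4 * x)
  have e2 := theta_eq x
  have hl4 : Real.log 4 ≤ 1.387 := by
    have : (4:ℝ) = 2 ^ 2 := by norm_num
    rw [this, Real.log_pow]
    have := Real.log_two_lt_d9
    push_cast
    linarith
  have hx0 : (0:ℝ) < x := by exact_mod_cast hx1
  have h4 : (0.6:ℝ) * x ≤ ∑ p ∈ PP x (4 * x), Real.log p := by
    rw [e1, h3, ← e2] at h1
    push_cast at h1
    nlinarith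
  have h5 : (∑ p ∈ PP x (4 * x), Real.log p) / (4 * x) ≤ ∑ p ∈ PP x (4 * x), Real.log p / p := by
    rw [Finset.sum_div]
    refine Finset.sum_le_sum fun p hp => ?_
    rw [mem_PP] at hp
    have hp0 : (0:ℝ) < p := by exact_mod_cast hp.2.pos
    have hp1 : (1:ℝ) ≤ p := by exact_mod_cast hp.2.one_le
    have hp4 : (p:ℝ) ≤ 4 * x := by exact_mod_cast hp.1.2
    exact div_le_div_of_nonneg_left (Real.log_nonneg hp1) hp0 hp4
  refine le_trans ?_ h5
  rw [le_div_iff₀ (by positivity)]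
  linarith

lemma blocks {Y0 : ℕ} (hY : ∀ n : ℕ, Y0 ≤ n → 1 + 4 * Real.log (2 * n) ≤ Real.sqrt n / 8)
    (a : ℕ) (ha : Y0 ≤ 4 ^ a) (m : ℕ) :
    (0.15 : ℝ) * m ≤ ∑ p ∈ PP (4 ^ a) (4 ^ (a + m)), Real.log p / p := by
  induction m with
  | zero =>
    simp only [Nat.cast_zero, mul_zero, add_zero]
    refine Finset.sum_nonneg fun p hp => ?_
    rw [mem_PP] at hp
    have hp1 : (1:ℝ) ≤ p := by exact_mod_cast hp.2.one_le
    exact div_nonneg (Real.log_nonneg hp1) (by linarith)
  | succ m ih =>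
    have h1 : 4 ^ a ≤ 4 ^ (a + m) := Nat.pow_le_pow_right (by norm_num) (by omega)
    have h2 : 4 ^ (a + m) ≤ 4 ^ (a + (m + 1)) := Nat.pow_le_pow_right (by norm_num) (by omega)
    rw [sum_PP_union h1 h2]
    have h3 := block hY (4 ^ (a + m)) (ha.trans h1) (Nat.one_le_pow _ _ (by norm_num))
    have e : 4 * 4 ^ (a + m) = 4 ^ (a + (m + 1)) := by ring
    rw [e] at h3
    push_cast
    linarith

/-- ending, general case -/
lemma real_gen {A U S T L lm s a : ℝ} (hU0 : 0 ≤ U) (hA : A = 2 + U) (hL : 0 ≤ L)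
    (ha : 8 * (L + 1) ≤ a) (hS : 2 * a ≤ S) (hUS : U * (1.386 * a) ≤ S) (hT : T ≤ s * U)
    (hs : 1 ≤ s) (hlm : 0 ≤ lm)
    (hmain : 2 * A * S ≤ 2 * (A + U) * (A + T) * lm + (A + U) ^ 2 / 4 + (A ^ 2 + U) * L + S) :
    1 ≤ 8 * s * lm := by
  have ha0 : 0 < a := by linarith
  have hS0 : 0 < S := by linarith
  have h1 : U * (1 + 2 * L) ≤ S / 4 := by
    have : U * (1 + 2 * L) * 4 ≤ U * (1.386 * a) := by
      rw [mul_assoc]
      apply mul_le_mul_of_nonneg_left _ hU0
      nlinarith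
    linarith
  have h2 : A * (1 + 2 * L) ≤ S / 2 := by
    rw [hA]
    nlinarith
  have hA2 : 2 ≤ A := by rw [hA]; linarith
  have hUA : U ≤ A := by rw [hA]; linarith
  have hAS : A ≤ S := by nlinarith
  have hUS' : U ≤ S := by linarith
  have h3 : (A + U) ^ 2 / 4 ≤ A ^ 2 := by nlinarith
  have h4 : U ≤ A ^ 2 := by nlinarith
  have h5 : (A ^ 2 + U) * L ≤ 2 * A ^ 2 * L := by
    apply mul_le_mul_of_nonneg_right _ hL; linarith
  have h6 : A * (A * (1 + 2 * L)) ≤ A * (S / 2) := mul_le_mul_of_nonneg_left h2 (by linarith)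
  have hTS : T ≤ s * S := hT.trans (mul_le_mul_of_nonneg_left hUS' (by linarith))
  have hSS : S ≤ s * S := by nlinarith
  have e1 : 2 * (A + U) ≤ 2 * (2 * A) := by linarith only [hUA]
  have e2 : A + T ≤ 2 * (s * S) := by linarith only [hTS, hSS, hAS]
  have hsS0 : 0 ≤ s * S := by linarith only [hSS, hS0]
  have h7 : 2 * (A + U) * (A + T) * lm ≤ 2 * (2 * A) * (2 * (s * S)) * lm := by
    apply mul_le_mul_of_nonneg_right _ hlm
    calc 2 * (A + U) * (A + T) ≤ 2 * (A + U) * (2 * (s * S)) :=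
          mul_le_mul_of_nonneg_left e2 (by linarith only [hA2, hU0])
      _ ≤ 2 * (2 * A) * (2 * (s * S)) := mul_le_mul_of_nonneg_right e1 (by linarith only [hsS0])
  have h8 : S ≤ A * S / 2 := by nlinarith only [hA2, hS0]
  have e3 : 2 * (2 * A) * (2 * (s * S)) * lm = A * S * (8 * s * lm) := by ring
  have e4 : A * (A * (1 + 2 * L)) = A ^ 2 + 2 * A ^ 2 * L := by ring
  have e5 : A * (S / 2) = A * S / 2 := by ring
  rw [e3] at h7
  rw [e4, e5] at h6
  have h9 : A * S * 1 ≤ A * S * (8 * s * lm) := by linarith only [h7, h6, h8, h5, h3, hmain]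
  have hAS0 : 0 < A * S := by positivity
  exact le_of_mul_le_mul_left h9 hAS0

/-- the number of primes up to `s` -/
lemma card_PP_le (s : ℕ) (hs : 2 ≤ s) : ((PP 0 s).card : ℝ) ≤ 4 * s / Real.log s := by
  have hs1 : (1:ℝ) < s := by exact_mod_cast hs
  have h1 := Chebyshev.pi_le_log4_mul_div hs1
  rw [Nat.floor_natCast] at h1
  have hc : (PP 0 s).card = Nat.primeCounting s := by
    rw [Nat.primeCounting, Nat.primeCounting', Nat.count_eq_card_filter_range]
    congr 1
    ext p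
    rw [mem_PP, Finset.mem_filter, Finset.mem_range]
    constructor
    · rintro ⟨⟨_, h⟩, h'⟩; exact ⟨by omega, h'⟩
    · rintro ⟨h, h'⟩; exact ⟨⟨h'.pos, by omega⟩, h'⟩
  rw [hc]
  refine h1.trans ?_
  set r := Real.sqrt s with hr
  have hr2 : r ^ 2 = s := Real.sq_sqrt (Nat.cast_nonneg s)
  have hr1 : 1 < r := by
    rw [hr, Real.lt_sqrt (by norm_num)]; simpa using hs1
  have hlr : Real.log s = 2 * Real.log r := by rw [← hr2, Real.log_pow]; norm_num
  have hlr0 : 0 < Real.log r := Real.log_pos hr1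
  have hlr2 : 2 * Real.log r ≤ r := by
    have := Real.log_le_sub_one_of_pos (show 0 < r / 2 by linarith)
    rw [Real.log_div (by linarith) (by norm_num)] at this
    have := Real.log_two_lt_d9
    linarith
  have hl4 : Real.log 4 ≤ 1.387 := by
    have : (4:ℝ) = 2 ^ 2 := by norm_num
    rw [this, Real.log_pow]
    have := Real.log_two_lt_d9
    push_cast
    linarith
  rw [hlr, ← hr2]
  rw [div_add' _ _ _ hlr0.ne', div_le_div_iff₀ hlr0 (by positivity)]
  have h3 : Real.log 4 * r ^ 2 + r * Real.log r ≤ 2 * r ^ 2 := by nlinarith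
  have h4 : (Real.log 4 * r ^ 2 + r * Real.log r) * (2 * Real.log r) ≤ (2 * r ^ 2) * (2 * Real.log r) :=
    mul_le_mul_of_nonneg_right h3 (by positivity)
  linarith

/-- ending, nondegenerate case -/
lemma real_nd {C kap l m s th U T L lm : ℝ} (hkap : 3 ≤ kap) (hkap' : kap = 3 + Real.log (C + 1))
    (hC : 1024 * kap ^ 2 ≤ C) (hl : 2 ≤ l) (hm : m = Real.log l) (hm1 : 1/2 ≤ m)
    (hs1 : C * l ^ 2 / m ≤ s) (hs2 : s ≤ C * l ^ 2 / m + 1)
    (hth : s / 4 ≤ th) (hU0 : 0 ≤ U) (hU : U ≤ 4 * s / Real.log s) (hUs : U ≤ s) (hT : T ≤ s * U)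
    (hL0 : 0 ≤ L) (hL : L ≤ l + 2 * Real.log s) (hlm : 0 ≤ lm)
    (hmain : 2 * (64 * kap * l / m) * th ≤ 2 * (64 * kap * l / m + U) * (64 * kap * l / m + T) * lm
      + (64 * kap * l / m + U) ^ 2 / (2 * s) ^ 2 + ((64 * kap * l / m) ^ 2 + U) * L + th) :
    m ^ 3 / (16 * (C + 1) ^ 2 * l ^ 3) ≤ lm := by
  have hm0 : 0 < m := by linarith
  have hl0 : 0 < l := by linarith
  have hlog2 := Real.log_two_lt_d9
  have hml : m ≤ l / 2 := by
    rw [hm]
    have := Real.log_le_sub_one_of_pos (show 0 < l / 2 by linarith)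
    rw [Real.log_div (by linarith) (by norm_num)] at this
    linarith
  have hk9 : 9 ≤ kap ^ 2 := by nlinarith
  have hC2304 : 9216 ≤ C := by linarith
  have hC0 : 0 < C := by linarith
  set A := 64 * kap * l / m with hA
  have hlm2 : 2 ≤ l / m := by rw [le_div_iff₀ hm0]; linarith
  have hA' : A = 64 * kap * (l / m) := by rw [hA]; ring
  have hA0 : 384 ≤ A := by
    rw [hA']
    have : 3 * 2 ≤ kap * (l / m) := mul_le_mul hkap hlm2 (by norm_num) (by linarith)
    linarith
  have hq : C * l ^ 2 / m = C * (l * (l / m)) := by ring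
  have hll : 4 ≤ l * (l / m) := by
    have : 2 * 2 ≤ l * (l / m) := mul_le_mul hl hlm2 (by norm_num) (by linarith)
    linarith
  have hlll : 2 * l ≤ l * (l / m) := by
    have := mul_le_mul_of_nonneg_left hlm2 hl0.le
    linarith
  have hsl : l ≤ s := by
    have h1 : 1 * (l * (l / m)) ≤ C * (l * (l / m)) :=
      mul_le_mul_of_nonneg_right (by linarith) (by linarith)
    linarith
  have hsbig : 1 ≤ s := by linarith
  have hs0 : 0 < s := by linarith
  have hsup : s ≤ (C + 1) * l ^ 2 / m := by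
    have e : (C + 1) * l ^ 2 / m = C * l ^ 2 / m + l * (l / m) := by ring
    rw [e]; linarith
  have hls1 : m ≤ Real.log s := by
    rw [hm]; exact Real.log_le_log hl0 hsl
  have hls0 : 0 < Real.log s := by linarith
  have hlC : 0 ≤ Real.log (C + 1) := by linarith
  have hls2 : Real.log s ≤ Real.log (C + 1) + 2 * m + Real.log 2 := by
    have h1 : s ≤ (C + 1) * l ^ 2 * 2 := by
      refine hsup.trans ?_
      rw [div_le_iff₀ hm0]
      have : 0 < (C + 1) * l ^ 2 := by positivity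
      nlinarith
    have h2 := Real.log_le_log hs0 h1
    rw [Real.log_mul (by positivity) (by norm_num), Real.log_mul (by positivity) (by positivity),
      Real.log_pow] at h2
    rw [hm]; push_cast at h2; linarith
  have hlCl : 2 * Real.log (C + 1) ≤ l * Real.log (C + 1) := mul_le_mul_of_nonneg_right hl hlC
  have hkl : kap * l = 3 * l + l * Real.log (C + 1) := by rw [hkap']; ring
  have hlsk : Real.log s ≤ kap * l := by rw [hkl]; linarith
  have hLk : L ≤ 2 * (kap * l) := by rw [hkl]; linarith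
  have hkl0 : 0 < kap * l := by positivity
  -- the four small terms
  have hAk : A = 64 * (kap * l) / m := by rw [hA]; ring
  have hsC : 1024 * (kap * l) ^ 2 / m ≤ s := by
    refine le_trans ?_ hs1
    apply div_le_div_of_nonneg_right _ hm0.le
    have := mul_le_mul_of_nonneg_right hC (by positivity : 0 ≤ l ^ 2)
    calc 1024 * (kap * l) ^ 2 = 1024 * kap ^ 2 * l ^ 2 := by ring
      _ ≤ C * l ^ 2 := this
  have hthp : 0 < th := by linarith
  have i1 : A * L ≤ th / 2 := by
    calc A * L ≤ A * (2 * (kap * l)) := mul_le_mul_of_nonneg_left hLk (by linarith)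
      _ = (1024 * (kap * l) ^ 2 / m) / 8 := by rw [hAk]; ring
      _ ≤ s / 8 := by linarith
      _ ≤ th / 2 := by linarith
  have i1' : A ^ 2 * L ≤ A * (th / 2) := by
    have := mul_le_mul_of_nonneg_left i1 (by linarith : 0 ≤ A)
    calc A ^ 2 * L = A * (A * L) := by ring
      _ ≤ _ := this
  have hUm : U ≤ 4 * s / m := hU.trans (div_le_div_of_nonneg_left (by positivity) hm0 hls1)
  have i2 : U * L ≤ A * (th / 2) := by
    calc U * L ≤ (4 * s / m) * (2 * (kap * l)) := mul_le_mul hUm hLk hL0 (by positivity)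
      _ = A * (s / 8) := by rw [hAk]; ring
      _ ≤ A * (th / 2) := mul_le_mul_of_nonneg_left (by linarith) (by linarith)
  have hAs : A ≤ s := by
    refine le_trans ?_ hsC
    rw [hAk]
    apply div_le_div_of_nonneg_right _ hm0.le
    have h1 : 3 * 2 ≤ kap * l := mul_le_mul hkap hl (by norm_num) (by linarith only [hkap])
    have h2 : 6 * (kap * l) ≤ (kap * l) * (kap * l) :=
      mul_le_mul_of_nonneg_right (by linarith only [h1]) hkl0.le
    have h3 : 1024 * (kap * l) ^ 2 = 1024 * ((kap * l) * (kap * l)) := by ring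
    rw [h3]
    linarith only [h2, hkl0]
  have i3 : (A + U) ^ 2 / (2 * s) ^ 2 ≤ 1 := by
    rw [div_le_one (by positivity)]
    apply pow_le_pow_left₀ (by linarith only [hA0, hU0]); linarith only [hAs, hUs]
  have i4 : th + 1 ≤ A * (th / 2) := by
    have h1 : 384 * (th / 2) ≤ A * (th / 2) := mul_le_mul_of_nonneg_right hA0 (by linarith only [hthp])
    linarith only [h1, hth, hsbig]
  have i5 : A * (th / 2) ≤ 2 * (A + U) * (A + T) * lm := by
    have e : (A ^ 2 + U) * L = A ^ 2 * L + U * L := by ring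
    rw [e] at hmain
    have e' : 2 * A * th = 4 * (A * (th / 2)) := by ring
    rw [e'] at hmain
    linarith only [hmain, i1', i2, i3, i4]
  set W := 4 * s / Real.log s with hW
  have hW0 : 0 < W := by positivity
  have hAW : A ≤ W := by
    rw [hW, le_div_iff₀ hls0]
    calc A * Real.log s ≤ A * (kap * l) := mul_le_mul_of_nonneg_left hlsk (by linarith)
      _ = (1024 * (kap * l) ^ 2 / m) / 16 := by rw [hAk]; ring
      _ ≤ 4 * s := by linarith only [hsC, hs0]
  have i6 : 2 * (A + U) * (A + T) * lm ≤ 8 * (s * W ^ 2) * lm := by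
    apply mul_le_mul_of_nonneg_right _ hlm
    have h1 : A + U ≤ 2 * W := by linarith only [hAW, hU]
    have hsU : s * U ≤ s * W := mul_le_mul_of_nonneg_left hU hs0.le
    have hsW : W ≤ s * W := by
      have := mul_le_mul_of_nonneg_right hsbig hW0.le
      linarith only [this]
    have h2 : A + T ≤ 2 * (s * W) := by linarith only [hAW, hT, hsU, hsW]
    calc 2 * (A + U) * (A + T) ≤ 2 * (A + U) * (2 * (s * W)) :=
          mul_le_mul_of_nonneg_left h2 (by linarith only [hA0, hU0])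
      _ ≤ 2 * (2 * W) * (2 * (s * W)) := by
          apply mul_le_mul_of_nonneg_right _ (by positivity); linarith only [h1]
      _ = 8 * (s * W ^ 2) := by ring
  have i7 : A ≤ 64 * W ^ 2 * lm := by
    have h1 : A * (s / 8) ≤ A * (th / 2) :=
      mul_le_mul_of_nonneg_left (by linarith only [hth]) (by linarith only [hA0])
    have h2 : A * s ≤ (64 * W ^ 2 * lm) * s := by
      have e : (64 * W ^ 2 * lm) * s = 8 * (8 * (s * W ^ 2) * lm) := by ring
      rw [e]; linarith only [h1, i5, i6]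
    exact le_of_mul_le_mul_right h2 hs0
  have i8 : W ^ 2 ≤ (4 * ((C + 1) * l ^ 2 / m) / m) ^ 2 := by
    apply pow_le_pow_left₀ hW0.le
    rw [hW]
    calc 4 * s / Real.log s ≤ 4 * s / m := div_le_div_of_nonneg_left (by positivity) hm0 hls1
      _ ≤ _ := by
        apply div_le_div_of_nonneg_right _ hm0.le
        linarith only [hsup]
  have i9 : 64 * (3 * l) / m ≤ 64 * (4 * ((C + 1) * l ^ 2 / m) / m) ^ 2 * lm := by
    calc 64 * (3 * l) / m ≤ A := by
          rw [hAk]
          apply div_le_div_of_nonneg_right _ hm0.le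
          have := mul_le_mul_of_nonneg_right hkap hl0.le
          linarith only [this]
      _ ≤ 64 * W ^ 2 * lm := i7
      _ ≤ _ := by
        apply mul_le_mul_of_nonneg_right _ hlm
        linarith only [i8]
  have e1 : 64 * (4 * ((C + 1) * l ^ 2 / m) / m) ^ 2 * lm =
      (64 * l / m) * (16 * (C + 1) ^ 2 * l ^ 3 * lm / m ^ 3) := by
    field_simp
    ring
  have e2 : 64 * (3 * l) / m = (64 * l / m) * 3 := by ring
  rw [e1, e2] at i9
  have i10 := le_of_mul_le_mul_left i9 (by positivity : 0 < 64 * l / m)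
  rw [div_le_iff₀ (by positivity)]
  rw [le_div_iff₀ (by positivity)] at i10
  have : 0 < m ^ 3 := by positivity
  linarith only [this, i10]

end Pool.Agent.W666.DL
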