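import Mathlib
import Pool.Agent.W666.DL.Ineq
import Pool.Agent.W666.DL.Primes

/-!
# Lower bounds for the height from the discriminant, number field form
-/

set_option autoImplicit false

open Finset Polynomial Module IntermediateField

namespace Pool.Agent.W666.DL

open Pool.Agent.H388SL

/-- the general case -/
theorem gen_field : ∃ c : ℝ, 0 < c ∧ c ≤ 1 ∧ ∀ (K : Type) [Field K] [NumberField K] (α : K),
    IsIntegral ℤ α → α ≠ 0 → (∀ n : ℕ, 0 < n → α ^ n ≠ 1) → CInj α → NL α = 0 →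
    ∀ δ : ℝ, 0 < δ → δ ≤ 1 →
    finrank ℚ K * Real.log (δ * finrank ℚ K) ≤ NL (aeval α (derivative (minpoly ℤ α))) →
    c * δ ^ 167 ≤ lam α := by
  obtain ⟨Y0, hY01, hY0⟩ := exists_Y0
  have hl2 := Real.log_two_lt_d9
  have hl2' := Real.log_two_gt_d9
  have hl4 : Real.log 4 = 2 * Real.log 2 := by
    have : (4:ℝ) = 2 ^ 2 := by norm_num
    rw [this, Real.log_pow]; norm_num
  set c : ℝ := 1 / (8 * Real.exp (15 * (2 * Real.log 2) * (9 + Y0)) * 4 ^ 167) with hc
  have hexp1 : 1 ≤ Real.exp (15 * (2 * Real.log 2) * (9 + Y0)) := by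
    apply Real.one_le_exp
    have : (0:ℝ) ≤ Y0 := Nat.cast_nonneg _
    have : 0 ≤ Real.log 2 := by linarith
    positivity
  have hc0 : 0 < c := by positivity
  refine ⟨c, hc0, ?_, ?_⟩
  · rw [hc, div_le_one (by positivity)]
    have h1 : (1:ℝ) ≤ 4 ^ 167 := one_le_pow₀ (by norm_num)
    have h2 : (1:ℝ) * 1 ≤ Real.exp (15 * (2 * Real.log 2) * (9 + Y0)) * 4 ^ 167 :=
      mul_le_mul hexp1 h1 (by norm_num) (by linarith)
    linarith
  intro K _ _ α hα h0 hroot hcinj hunit δ hδ0 hδ1 hD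
  set L := Real.log (4 / δ) with hL
  have hLge : Real.log 4 ≤ L := by
    apply Real.log_le_log (by norm_num)
    rw [le_div_iff₀ hδ0]; linarith
  have hL0 : 0 ≤ L := by linarith
  set a : ℕ := ⌈8 * (L + 1)⌉₊ + Y0 with ha
  have ha1 : 8 * (L + 1) ≤ a := by
    rw [ha]; push_cast
    have h1 : 8 * (L + 1) ≤ (⌈8 * (L + 1)⌉₊ : ℝ) := Nat.le_ceil _
    have h2 : (0:ℝ) ≤ Y0 := Nat.cast_nonneg _
    linarith
  have ha2 : (a:ℝ) ≤ 8 * (L + 1) + 1 + Y0 := by
    rw [ha]; push_cast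
    have h1 : (⌈8 * (L + 1)⌉₊ : ℝ) ≤ 8 * (L + 1) + 1 := (Nat.ceil_lt_add_one (by positivity)).le
    linarith
  have ha0 : (0:ℝ) < a := by linarith
  have haY : Y0 ≤ 4 ^ a := by
    have h1 : a < 4 ^ a := Nat.lt_pow_self (by norm_num)
    omega
  set P := PP (4 ^ a) (4 ^ (a + 14 * a)) with hP
  set u : ℕ → ℝ := fun p => 1 / (rr (α ^ p) : ℝ) with hu
  have hPp : ∀ p ∈ P, p.Prime := fun p hp => (mem_PP.mp hp).2
  have hu0 : ∀ p, 0 ≤ u p := fun p => by rw [hu]; positivity
  have hup : ∀ p ∈ P, 1 / (p:ℝ) ≤ u p := by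
    intro p hp
    have h1 := rr_le hcinj (hPp p hp).pos
    rw [hu]
    apply one_div_le_one_div_of_le
    · exact_mod_cast rr_pos (α ^ p)
    · exact_mod_cast h1
  set U := ∑ p ∈ P, u p with hU
  set S := ∑ p ∈ P, u p * Real.log p with hS
  set T := ∑ p ∈ P, u p * (p:ℝ) with hT
  have hU0 : 0 ≤ U := Finset.sum_nonneg fun p _ => hu0 p
  have hmain := disc_ineq hα h0 hroot hcinj hunit P hPp u (fun p _ => rfl) (A := 2 + U)
    (by linarith) (n := 4) (by norm_num) hδ0 hD
  have hSge : 2 * (a:ℝ) ≤ S := by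
    have h1 := blocks hY0 a haY (14 * a)
    have h2 : ∑ p ∈ P, Real.log p / p ≤ S := by
      refine Finset.sum_le_sum fun p hp => ?_
      have h3 : 0 ≤ Real.log p := Real.log_natCast_nonneg p
      have := mul_le_mul_of_nonneg_right (hup p hp) h3
      calc Real.log p / p = 1 / (p:ℝ) * Real.log p := by ring
        _ ≤ _ := this
    push_cast at h1
    linarith
  have hUS : U * (1.386 * a) ≤ S := by
    rw [hU, Finset.sum_mul]
    refine Finset.sum_le_sum fun p hp => ?_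
    apply mul_le_mul_of_nonneg_left _ (hu0 p)
    have hp' := (mem_PP.mp hp).1.1
    have h1 : Real.log ((4:ℝ) ^ a) ≤ Real.log p := by
      apply Real.log_le_log (by positivity)
      exact_mod_cast hp'.le
    rw [Real.log_pow, hl4] at h1
    nlinarith
  set s : ℝ := (4:ℝ) ^ (a + 14 * a) with hs
  have hs1 : 1 ≤ s := one_le_pow₀ (by norm_num)
  have hTs : T ≤ s * U := by
    rw [hT, hU, Finset.mul_sum]
    refine Finset.sum_le_sum fun p hp => ?_
    rw [mul_comm]
    apply mul_le_mul_of_nonneg_right _ (hu0 p)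
    have hp' := (mem_PP.mp hp).1.2
    rw [hs]
    exact_mod_cast hp'
  have hfin := real_gen hU0 rfl hL0 ha1 hSge hUS hTs hs1 (lam_nonneg α) hmain
  -- conclude
  have h4δ : 0 < 4 / δ := by positivity
  have hsle : s ≤ Real.exp (15 * (2 * Real.log 2) * (9 + Y0)) * (4 / δ) ^ 167 := by
    have e1 : s = Real.exp (15 * a * (2 * Real.log 2)) := by
      rw [hs, ← hl4, mul_comm (15 * (a:ℝ)) (Real.log 4), ← Real.rpow_def_of_pos (by norm_num)]
      rw [← Real.rpow_natCast]
      congr 1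
      push_cast; ring
    have e2 : (4 / δ) ^ 167 = Real.exp (167 * L) := by
      rw [hL, mul_comm (167:ℝ) (Real.log (4 / δ)), ← Real.rpow_def_of_pos h4δ, ← Real.rpow_natCast]
      norm_num
    rw [e1, e2, ← Real.exp_add]
    apply Real.exp_le_exp.mpr
    have h1 : 15 * a * (2 * Real.log 2) ≤ 15 * (8 * (L + 1) + 1 + Y0) * (2 * Real.log 2) := by
      apply mul_le_mul_of_nonneg_right _ (by linarith)
      linarith
    refine h1.trans ?_
    nlinarith
  have h1 : 1 ≤ 8 * (Real.exp (15 * (2 * Real.log 2) * (9 + Y0)) * (4 / δ) ^ 167) * lam α := by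
    refine hfin.trans ?_
    apply mul_le_mul_of_nonneg_right _ (lam_nonneg α)
    linarith
  rw [hc, div_mul_eq_mul_div, one_mul, div_le_iff₀ (by positivity)]
  rw [div_pow] at h1
  have e3 : 8 * (Real.exp (15 * (2 * Real.log 2) * (9 + Y0)) * (4 ^ 167 / δ ^ 167)) * lam α =
    (lam α * (8 * Real.exp (15 * (2 * Real.log 2) * (9 + Y0)) * 4 ^ 167)) / δ ^ 167 := by ring
  rw [e3, le_div_iff₀ (by positivity), one_mul] at h1
  exact h1

lemma exists_C (Y0 : ℕ) : ∃ C : ℝ, (Y0:ℝ) ≤ C ∧ 1024 * (3 + Real.log (C + 1)) ^ 2 ≤ C ∧ 1 ≤ C := by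
  set y : ℝ := Y0 + 300 with hy
  have hY : (0:ℝ) ≤ Y0 := Nat.cast_nonneg _
  have hy1 : 300 ≤ y := by linarith
  have h1 : Real.log (y ^ 4 - 1 + 1) ≤ 4 * y := by
    rw [sub_add_cancel, Real.log_pow]
    have := Real.log_le_sub_one_of_pos (show 0 < y by linarith)
    push_cast
    linarith
  have h0 : 0 ≤ Real.log (y ^ 4 - 1 + 1) := by
    rw [sub_add_cancel]
    exact Real.log_nonneg (one_le_pow₀ (by linarith))
  have hy2 : 100 * y ≤ y ^ 2 := by nlinarith
  have hy3 : 10000 * y ^ 2 ≤ y ^ 4 := by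
    have : (100:ℝ) ^ 2 ≤ y ^ 2 := pow_le_pow_left₀ (by norm_num) (by linarith) 2
    have e : y ^ 4 = y ^ 2 * y ^ 2 := by ring
    rw [e]
    nlinarith [sq_nonneg y]
  refine ⟨y ^ 4 - 1, by nlinarith, ?_, by nlinarith⟩
  have h2 : 3 + Real.log (y ^ 4 - 1 + 1) ≤ 5 * y := by linarith
  have hy4 : 80000 * y ^ 2 ≤ y ^ 4 := by
    have : (300:ℝ) ^ 2 ≤ y ^ 2 := by gcongr
    have e : y ^ 4 = y ^ 2 * y ^ 2 := by ring
    rw [e]
    nlinarith [sq_nonneg y]
  calc 1024 * (3 + Real.log (y ^ 4 - 1 + 1)) ^ 2 ≤ 1024 * (5 * y) ^ 2 := by gcongr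
    _ = 25600 * y ^ 2 := by ring
    _ ≤ y ^ 4 - 1 := by nlinarith

/-- the case of few degenerate primes -/
theorem nd_field : ∃ c : ℝ, 0 < c ∧ c ≤ 1 ∧ ∀ (K : Type) [Field K] [NumberField K] (α : K),
    IsIntegral ℤ α → α ≠ 0 → (∀ n : ℕ, 0 < n → α ^ n ≠ 1) → CInj α → NL α = 0 →
    ∀ B : Finset ℕ, (∀ p : ℕ, p.Prime → p ∉ B → CInj (α ^ p)) →
    ∀ δ : ℝ, 0 < δ → δ ≤ 1 →
    finrank ℚ K * Real.log (δ * finrank ℚ K) ≤ NL (aeval α (derivative (minpoly ℤ α))) →
    c * (Real.log (Real.log (16 / δ) + B.card) / (Real.log (16 / δ) + B.card)) ^ 3 ≤ lam α := by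
  obtain ⟨Y0, hY01, hY0⟩ := exists_Y0
  obtain ⟨C, hCY, hC, hC1⟩ := exists_C Y0
  have hl2 := Real.log_two_lt_d9
  have hl2' := Real.log_two_gt_d9
  have hlC : 0 ≤ Real.log (C + 1) := Real.log_nonneg (by linarith)
  set kap := 3 + Real.log (C + 1) with hkap
  have hkap3 : 3 ≤ kap := by linarith
  refine ⟨1 / (16 * (C + 1) ^ 2), by positivity, ?_, ?_⟩
  · rw [div_le_one (by positivity)]
    nlinarith
  intro K _ _ α hα h0 hroot hcinj hunit B hnd δ hδ0 hδ1 hD
  classical
  set l := Real.log (16 / δ) + B.card with hl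
  have hB0 : (0:ℝ) ≤ B.card := Nat.cast_nonneg _
  have hl16 : Real.log 16 = 4 * Real.log 2 := by
    have : (16:ℝ) = 2 ^ 4 := by norm_num
    rw [this, Real.log_pow]; norm_num
  have hl' : l = 4 * Real.log 2 - Real.log δ + B.card := by
    rw [hl, Real.log_div (by norm_num) hδ0.ne', hl16]
  have hlδ : Real.log δ ≤ 0 := Real.log_nonpos hδ0.le hδ1
  have hl2a : 2 ≤ l := by linarith
  have hBl : (B.card : ℝ) ≤ l := by linarith
  have hl0 : 0 < l := by linarith
  set m := Real.log l with hm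
  have hm1 : 1 / 2 ≤ m := by
    have h1 : Real.log 2 ≤ m := Real.log_le_log (by norm_num) hl2a
    linarith
  have hm0 : 0 < m := by linarith
  have hml : m ≤ l := by
    have := Real.log_le_sub_one_of_pos hl0
    linarith
  have hm2l : m ^ 2 ≤ l := by
    set r := Real.sqrt l with hr
    have hr2 : r ^ 2 = l := Real.sq_sqrt hl0.le
    have hr0 : 0 < r := Real.sqrt_pos.mpr hl0
    have h1 : m = 2 * Real.log r := by rw [hm, ← hr2, Real.log_pow]; norm_num
    have h2 : 2 * Real.log r ≤ r := by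
      have := Real.log_le_sub_one_of_pos (show 0 < r / 2 by linarith)
      rw [Real.log_div (by linarith) (by norm_num)] at this
      linarith
    rw [← hr2]
    apply pow_le_pow_left₀ hm0.le
    linarith
  have hCl : C * l ≤ C * l ^ 2 / m := by
    rw [le_div_iff₀ hm0]
    have : C * l * m ≤ C * l * l := mul_le_mul_of_nonneg_left hml (by positivity)
    linarith
  set s : ℕ := ⌈C * l ^ 2 / m⌉₊ with hs
  have hs1 : C * l ^ 2 / m ≤ s := Nat.le_ceil _
  have hs2 : (s:ℝ) ≤ C * l ^ 2 / m + 1 := (Nat.ceil_lt_add_one (by positivity)).le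
  have hC2 : C * 2 ≤ C * l := mul_le_mul_of_nonneg_left hl2a (by linarith)
  have hsY : Y0 ≤ s := by
    have : (Y0:ℝ) ≤ s := by linarith
    exact_mod_cast this
  have hs2' : 2 ≤ s := by
    have : (2:ℝ) ≤ s := by linarith
    exact_mod_cast this
  have hs2r : (2:ℝ) ≤ s := by exact_mod_cast hs2'
  have hs0 : (0:ℝ) < s := by linarith
  set P := PP 0 s \ B with hP
  have hPp : ∀ p ∈ P, p.Prime := fun p hp => (mem_PP.mp (Finset.mem_sdiff.mp hp).1).2
  have hPs : ∀ p ∈ P, p ≤ s := fun p hp => (mem_PP.mp (Finset.mem_sdiff.mp hp).1).1.2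
  have hrr : ∀ p ∈ P, (1:ℝ) = 1 / (rr (α ^ p) : ℝ) := by
    intro p hp
    rw [rr_one (hnd p (hPp p hp) (Finset.mem_sdiff.mp hp).2)]; norm_num
  -- the sum of log p
  have hlogs : 0 ≤ Real.log s := Real.log_natCast_nonneg s
  have hth0 := theta_half hY0 s hsY (by omega)
  rw [theta_eq] at hth0
  have hBlog : (B.card : ℝ) * Real.log s ≤ s / 4 := by
    -- log s is small
    have h1 : (s:ℝ) ≤ (C + 1) * l ^ 2 * 2 := by
      have h2 : 1 ≤ l ^ 2 / m := by
        rw [le_div_iff₀ hm0]; nlinarith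
      have h3 : (s:ℝ) ≤ (C + 1) * l ^ 2 / m := by
        have e : (C + 1) * l ^ 2 / m = C * l ^ 2 / m + l ^ 2 / m := by ring
        linarith
      refine h3.trans ?_
      rw [div_le_iff₀ hm0]
      have : 0 < (C + 1) * l ^ 2 := by positivity
      nlinarith
    have h2 := Real.log_le_log hs0 h1
    rw [Real.log_mul (by positivity) (by norm_num), Real.log_mul (by positivity) (by positivity),
      Real.log_pow] at h2
    push_cast at h2
    have h3 : Real.log s ≤ Real.log (C + 1) + 2 * m + 1 := by rw [hm]; linarith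
    have h4 : (B.card : ℝ) * Real.log s ≤ l * (Real.log (C + 1) + 2 * m + 1) :=
      mul_le_mul hBl h3 hlogs hl0.le
    have h5 : l * (Real.log (C + 1) + 2 * m + 1) * m ≤ C * l ^ 2 / 4 := by
      have i1 : Real.log (C + 1) * m ≤ Real.log (C + 1) * l := mul_le_mul_of_nonneg_left hml hlC
      have i2 : (Real.log (C + 1) + 2 * m + 1) * m ≤ (Real.log (C + 1) + 3) * l := by
        have : (Real.log (C + 1) + 2 * m + 1) * m = Real.log (C + 1) * m + 2 * m ^ 2 + m := by ring
        rw [this]; linarith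
      have i3 : Real.log (C + 1) + 3 ≤ C / 4 := by
        have : kap = Real.log (C + 1) + 3 := by rw [hkap]; ring
        rw [← this]
        nlinarith
      calc l * (Real.log (C + 1) + 2 * m + 1) * m = l * ((Real.log (C + 1) + 2 * m + 1) * m) := by ring
        _ ≤ l * ((Real.log (C + 1) + 3) * l) := mul_le_mul_of_nonneg_left i2 hl0.le
        _ ≤ l * ((C / 4) * l) := by
            apply mul_le_mul_of_nonneg_left _ hl0.le
            exact mul_le_mul_of_nonneg_right i3 hl0.le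
        _ = C * l ^ 2 / 4 := by ring
    have h6 : l * (Real.log (C + 1) + 2 * m + 1) ≤ C * l ^ 2 / m / 4 := by
      rw [div_div, le_div_iff₀ (by positivity)]
      linarith
    linarith
  have hth : (s:ℝ) / 4 ≤ ∑ p ∈ P, Real.log p := by
    have h1 : ∑ p ∈ PP 0 s, Real.log p ≤ ∑ p ∈ P, Real.log p + B.card * Real.log s := by
      have h2 : ∑ p ∈ PP 0 s, Real.log p = ∑ p ∈ PP 0 s \ B, Real.log p + ∑ p ∈ PP 0 s ∩ B, Real.log p := by
        rw [add_comm]; exact (Finset.sum_inter_add_sum_sdiff _ _ _).symm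
      have h3 : ∑ p ∈ PP 0 s ∩ B, Real.log p ≤ (PP 0 s ∩ B).card • Real.log s := by
        apply Finset.sum_le_card_nsmul
        intro p hp
        have hp' := mem_PP.mp (Finset.mem_inter.mp hp).1
        apply Real.log_le_log
        · exact_mod_cast hp'.2.pos
        · exact_mod_cast hp'.1.2
      have h4 : ((PP 0 s ∩ B).card : ℝ) ≤ B.card := by
        exact_mod_cast Finset.card_le_card Finset.inter_subset_right
      rw [nsmul_eq_mul] at h3
      have h5 := mul_le_mul_of_nonneg_right h4 hlogs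
      rw [h2, ← hP]; linarith
    linarith
  have hmain := disc_ineq hα h0 hroot hcinj hunit P hPp (fun _ => (1:ℝ)) hrr
    (A := 64 * kap * l / m) (by positivity) (n := (2 * (s:ℝ)) ^ 2) (by nlinarith) hδ0 hD
  simp only [one_mul, Finset.sum_const, nsmul_eq_mul, mul_one] at hmain
  have hPcard : (P.card : ℝ) ≤ (PP 0 s).card := by
    exact_mod_cast Finset.card_le_card Finset.sdiff_subset
  have hcard : (P.card : ℝ) ≤ s := by
    have h1 : (PP 0 s).card ≤ (Finset.Ioc 0 s).card := Finset.card_le_card (Finset.filter_subset _ _)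
    rw [Nat.card_Ioc] at h1
    have h2 : ((PP 0 s).card : ℝ) ≤ s := by exact_mod_cast (by omega : (PP 0 s).card ≤ s)
    linarith
  have hT : ∑ p ∈ P, (p:ℝ) ≤ s * P.card := by
    calc ∑ p ∈ P, (p:ℝ) ≤ P.card • (s:ℝ) := by
          apply Finset.sum_le_card_nsmul
          intro p hp
          exact_mod_cast hPs p hp
      _ = s * P.card := by rw [nsmul_eq_mul, mul_comm]
  have hLe : Real.log ((2 * (s:ℝ)) ^ 2 / δ) = 2 * Real.log 2 + 2 * Real.log s - Real.log δ := by
    rw [Real.log_div (by positivity) hδ0.ne', Real.log_pow, Real.log_mul (by norm_num) hs0.ne']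
    push_cast; ring
  have h := real_nd (L := Real.log ((2 * (s:ℝ)) ^ 2 / δ)) hkap3 hkap hC hl2a hm hm1 hs1 hs2 hth
    (Nat.cast_nonneg _) (hPcard.trans (card_PP_le s hs2')) hcard hT (by rw [hLe]; linarith)
    (by rw [hLe, hl']; linarith) (lam_nonneg α) hmain
  refine le_trans (le_of_eq ?_) h
  rw [div_pow]
  field_simp

end Pool.Agent.W666.DL
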