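import Mathlib
import Pool.Agent.H388SL.Fin
import Pool.Agent.W666.DL.Main

/-!
# From number fields to polynomials
-/

set_option autoImplicit false

open Finset Polynomial Module IntermediateField

namespace Pool.Agent.W666.DL

open Pool.Agent.H388SL

lemma MM_unit {u : ℤ[X]} (hu : IsUnit u) : MM u = 1 := by
  obtain ⟨v, hv⟩ := hu.exists_right_inv
  have h1 : MM u * MM v = 1 := by
    rw [← MM_mul, hv, MM, Polynomial.map_one, mahlerMeasure_one]
  have hv0 : v ≠ 0 := by rintro rfl; simp at hv
  have h2 := one_le_MM hu.ne_zero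
  have h3 := one_le_MM hv0
  nlinarith

lemma abs_discr_neg (p : ℤ[X]) (hp : 0 < p.degree) : |(-p).discr| = |p.discr| := by
  have hp' : 0 < (-p).degree := by rwa [degree_neg]
  have h1 := resultant_deriv hp
  have h2 := resultant_deriv hp'
  rw [natDegree_neg, derivative_neg] at h2
  have e1 : -p = C (-1) * p := by simp
  have e2 : -(derivative p) = C (-1) * derivative p := by simp
  have h3 : resultant (-p) (-(derivative p)) p.natDegree (p.natDegree - 1) =
      (-1) ^ p.natDegree * ((-1) ^ (p.natDegree - 1) * resultant p (derivative p) p.natDegree (p.natDegree - 1)) := by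
    rw [e2, resultant_C_mul_right, e1, resultant_C_mul_left]
  rw [h3, h1] at h2
  have h4 := congrArg abs h2
  simp only [abs_mul, abs_pow, abs_neg, abs_one, one_pow, one_mul, leadingCoeff_neg] at h4
  have h5 : |p.leadingCoeff| ≠ 0 := by
    rw [abs_ne_zero, leadingCoeff_ne_zero]
    rintro rfl
    simp at hp
  exact (mul_left_cancel₀ h5 h4).symm

/-- the number field data attached to an irreducible monic polynomial with constant term `±1` -/
lemma to_field (p : ℤ[X]) (hp : Irreducible p) (hm : p.Monic) (hc0 : |(p.coeff 0 : ℝ)| = 1)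
    (hM : 1 < MM p) :
    ∃ (K : Type) (_ : Field K) (_ : NumberField K) (α : K), IsIntegral ℤ α ∧ α ≠ 0 ∧
      (∀ n : ℕ, 0 < n → α ^ n ≠ 1) ∧ CInj α ∧ NL α = 0 ∧ finrank ℚ K = p.natDegree ∧
      Real.log (MM p) = lam α ∧
      NL (aeval α (derivative (minpoly ℤ α))) = Real.log |(p.discr : ℝ)| ∧ aeval α p = 0 := by
  classical
  have hdeg : p.natDegree ≠ 0 := by
    intro h
    have := hm.natDegree_eq_zero.mp h
    exact hp.not_isUnit (this ▸ isUnit_one)
  obtain ⟨z, hz⟩ := IsAlgClosed.exists_aeval_eq_zero ℂ p (by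
    intro h
    exact hdeg (natDegree_eq_of_degree_eq_some h))
  have hzi : IsIntegral ℤ z := ⟨p, hm, by rw [← Polynomial.aeval_def]; exact hz⟩
  have hzQ : IsIntegral ℚ z := hzi.tower_top
  have hmin : minpoly ℤ z = p := by
    have h1 := minpoly.isIntegrallyClosed_dvd hzi hz
    have h2 : Associated (minpoly ℤ z) p :=
      (minpoly.irreducible hzi).associated_of_dvd hp h1
    exact eq_of_monic_of_associated (minpoly.monic hzi) hm h2
  set L := adjoin ℚ {z} with hL
  have hfin : FiniteDimensional ℚ L := adjoin.finiteDimensional hzQ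
  have : NumberField L := { to_charZero := inferInstance, to_finiteDimensional := hfin }
  set α : L := AdjoinSimple.gen ℚ z with hα
  have hαz : algebraMap L ℂ α = z := AdjoinSimple.algebraMap_gen ℚ z
  have hαi : IsIntegral ℤ α := by
    rw [← hαz] at hzi
    exact (isIntegral_algebraMap_iff (algebraMap L ℂ).injective).mp hzi
  have hαc : CInj α := by
    intro σ τ h
    apply adjoin_algHom_ext ℚ (s := {z})
    intro x hx
    rw [Set.mem_singleton_iff] at hx
    subst hx
    exact h
  have hminα : minpoly ℤ α = p := by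
    rw [← hmin, ← hαz]
    exact (minpoly.algebraMap_eq (algebraMap L ℂ).injective α).symm
  have hpmap : p.map (Int.castRingHom ℂ) = ∏ τ : L →ₐ[ℚ] ℂ, (X - C (τ α)) := by
    rw [← minpoly_map_eq hαc, minpoly.isIntegrallyClosed_eq_field_fractions' ℚ hαi, hminα,
      Polynomial.map_map]
    rfl
  have hMM : Real.log (MM p) = lam α := by
    rw [MM, hpmap]
    have h1 : (∏ τ : L →ₐ[ℚ] ℂ, (X - C (τ α))).mahlerMeasure = ∏ τ : L →ₐ[ℚ] ℂ, max 1 ‖τ α‖ := by
      rw [Finset.prod_eq_multiset_prod, prod_mahlerMeasure_eq_mahlerMeasure_prod, Multiset.map_map,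
        Finset.prod_eq_multiset_prod]
      congr 1
      refine Multiset.map_congr rfl fun τ _ => ?_
      rw [Function.comp_apply, mahlerMeasure_X_sub_C]
    rw [h1, Real.log_prod]
    · rfl
    · intro τ _
      have : (0:ℝ) < max 1 ‖τ α‖ := lt_of_lt_of_le one_pos (le_max_left _ _)
      exact this.ne'
  have hlam : 0 < lam α := by rw [← hMM]; exact Real.log_pos hM
  have hα0 : α ≠ 0 := by
    intro h
    rw [h] at hlam
    simp [lam] at hlam
  have hαroot : ∀ n : ℕ, 0 < n → α ^ n ≠ 1 := by
    intro n hn h
    have h1 := lam_pow α n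
    rw [h] at h1
    have h2 : lam (1 : L) = 0 := by simp [lam]
    rw [h2] at h1
    have h3 : (0:ℝ) < n := by exact_mod_cast hn
    have : 0 < (n:ℝ) * lam α := by positivity
    linarith
  have hfr : finrank ℚ L = p.natDegree := by
    rw [hL, adjoin.finrank hzQ, minpoly.isIntegrallyClosed_eq_field_fractions' ℚ hzi, hmin]
    exact natDegree_map_eq_of_injective (algebraMap ℤ ℚ).injective_int p
  have hunit : NL α = 0 := by
    have h1 : ((p.coeff 0 : ℤ) : ℂ) = (p.map (Int.castRingHom ℂ)).eval 0 := by
      rw [← Polynomial.coeff_zero_eq_eval_zero, Polynomial.coeff_map]; rfl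
    have h2 : |(p.coeff 0 : ℝ)| = ‖((p.coeff 0 : ℤ) : ℂ)‖ := by
      rw [Complex.norm_intCast]
    rw [h2, h1, hpmap, Polynomial.eval_prod, norm_prod] at hc0
    have h3 := congrArg Real.log hc0
    rw [Real.log_one, Real.log_prod] at h3
    · rw [NL, ← h3]
      refine Finset.sum_congr rfl fun σ _ => ?_
      simp
    · intro σ _
      simp [hα0]
  refine ⟨L, inferInstance, inferInstance, α, hαi, hα0, hαroot, hαc, hunit, hfr, hMM, ?_, ?_⟩
  · -- discriminant
    have hd0 : 0 < p.degree := natDegree_pos_iff_degree_pos.mp (Nat.pos_of_ne_zero hdeg)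
    have h1 := resultant_deriv hd0
    rw [hm.leadingCoeff, mul_one] at h1
    have h2 : |(p.discr : ℝ)| = ‖((resultant p (derivative p) p.natDegree (p.natDegree - 1) : ℤ) : ℂ)‖ := by
      rw [h1, Complex.norm_intCast]
      push_cast
      rw [abs_mul, abs_pow, abs_neg, abs_one, one_pow, one_mul]
    have h3 : ((resultant p (derivative p) p.natDegree (p.natDegree - 1) : ℤ) : ℂ) =
        ∏ σ : L →ₐ[ℚ] ℂ, σ (aeval α (derivative p)) := by
      have h4 : ((resultant p (derivative p) p.natDegree (p.natDegree - 1) : ℤ) : ℂ) =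
          resultant (p.map (Int.castRingHom ℂ)) ((derivative p).map (Int.castRingHom ℂ))
            p.natDegree (p.natDegree - 1) := by
        rw [resultant_map_map]; rfl
      have hnd : (p.map (Int.castRingHom ℂ)).natDegree = p.natDegree :=
        natDegree_map_eq_of_injective (RingHom.injective_int _) p
      have h5 := resultant_eq_prod_eval (p.map (Int.castRingHom ℂ))
        ((derivative p).map (Int.castRingHom ℂ)) (p.natDegree - 1)
        (natDegree_map_le.trans (natDegree_derivative_le p)) (IsAlgClosed.splits _)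
      rw [hnd] at h5
      have hlc : (p.map (Int.castRingHom ℂ)).leadingCoeff = 1 := (hm.map _).leadingCoeff
      rw [hlc, one_pow, one_mul] at h5
      rw [h4, h5]
      have h6 : (p.map (Int.castRingHom ℂ)).roots =
          (Finset.univ : Finset (L →ₐ[ℚ] ℂ)).val.map (fun τ => τ α) := by
        rw [hpmap, Finset.prod_eq_multiset_prod]
        have e : (Multiset.map (fun τ : L →ₐ[ℚ] ℂ => X - C (τ α)) Finset.univ.val) =
            Multiset.map (fun a : ℂ => X - C a)
              (Multiset.map (fun τ : L →ₐ[ℚ] ℂ => τ α) Finset.univ.val) := by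
          rw [Multiset.map_map]; rfl
        rw [e, Polynomial.roots_multiset_prod_X_sub_C]
      rw [h6, Multiset.map_map, Finset.prod_eq_multiset_prod]
      congr 1
      refine Multiset.map_congr rfl fun τ _ => ?_
      rw [Function.comp_apply, map_aevalZ, Polynomial.aeval_def, ← Polynomial.eval_map]
      rfl
    rw [h2, h3, hminα, norm_prod, Real.log_prod]
    · rfl
    · intro σ _
      rw [norm_ne_zero_iff, map_ne_zero_iff σ σ.injective, ← hminα]
      exact deriv_ne_zero hαi
  · rw [← hminα, minpoly.aeval]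

end Pool.Agent.W666.DL
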