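import Mathlib
import Pool.Agent.W666.DL.Poly

/-!
# Lehmer's problem for polynomials of large discriminant
-/

set_option autoImplicit false

open Polynomial Module

namespace Pool.Agent.W666.DL

open Pool.Agent.H388SL

lemma ell_ge_one {δ : ℝ} (h0 : 0 < δ) (h1 : δ ≤ 1) (b : ℕ) :
    1 ≤ Real.log (16 / δ) + b := by
  have hl2' := Real.log_two_gt_d9
  have hl16 : Real.log 16 = 4 * Real.log 2 := by
    have : (16:ℝ) = 2 ^ 4 := by norm_num
    rw [this, Real.log_pow]; norm_num
  have h2 : Real.log 16 ≤ Real.log (16 / δ) := by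
    apply Real.log_le_log (by norm_num)
    rw [le_div_iff₀ h0]; linarith
  have h3 : (0:ℝ) ≤ b := Nat.cast_nonneg _
  linarith

lemma ratio_le_one {x : ℝ} (hx : 1 ≤ x) :
    0 ≤ Real.log x / x ∧ Real.log x / x ≤ 1 := by
  have h4 : 0 < x := by linarith
  constructor
  · exact div_nonneg (Real.log_nonneg hx) h4.le
  · rw [div_le_one h4]
    have := Real.log_le_sub_one_of_pos h4
    linarith

/-- `B` contains every prime `p` for which two distinct zeros of `f` have the same `p`-th power -/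
def DegIn (f : ℤ[X]) (B : Finset ℕ) : Prop :=
  ∀ p : ℕ, p.Prime → ∀ z w : ℂ, aeval z f = 0 → aeval w f = 0 → z ≠ w → z ^ p = w ^ p → p ∈ B

/-- monic case -/
lemma monic_case {c1 c2 : ℝ}
    (h1 : ∀ (K : Type) [Field K] [NumberField K] (α : K),
      IsIntegral ℤ α → α ≠ 0 → (∀ n : ℕ, 0 < n → α ^ n ≠ 1) → CInj α → NL α = 0 →
      ∀ δ : ℝ, 0 < δ → δ ≤ 1 →
      finrank ℚ K * Real.log (δ * finrank ℚ K) ≤ NL (aeval α (derivative (minpoly ℤ α))) →
      c1 * δ ^ 167 ≤ lam α)
    (h2 : ∀ (K : Type) [Field K] [NumberField K] (α : K),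
      IsIntegral ℤ α → α ≠ 0 → (∀ n : ℕ, 0 < n → α ^ n ≠ 1) → CInj α → NL α = 0 →
      ∀ B : Finset ℕ, (∀ p : ℕ, p.Prime → p ∉ B → CInj (α ^ p)) →
      ∀ δ : ℝ, 0 < δ → δ ≤ 1 →
      finrank ℚ K * Real.log (δ * finrank ℚ K) ≤ NL (aeval α (derivative (minpoly ℤ α))) →
      c2 * (Real.log (Real.log (16 / δ) + B.card) / (Real.log (16 / δ) + B.card)) ^ 3 ≤ lam α)
    (p : ℤ[X]) (hp : Irreducible p) (hm : p.Monic) (hc0 : |p.coeff 0| = 1) (hM : 1 < MM p)
    (δ : ℝ) (hδ0 : 0 < δ) (hδ1 : δ ≤ 1)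
    (hD : (δ * p.natDegree) ^ p.natDegree ≤ |(p.discr : ℝ)|) (B : Finset ℕ) (hB : DegIn p B) :
    1 + c1 * δ ^ 167 ≤ MM p ∧
      1 + c2 * (Real.log (Real.log (16 / δ) + B.card) / (Real.log (16 / δ) + B.card)) ^ 3 ≤ MM p := by
  obtain ⟨K, iF, iN, α, hα, h0, hroot, hc, hunit, hfr, hMM, hdisc, hpα⟩ :=
    to_field p hp hm (by exact_mod_cast hc0) hM
  have hd0 : (0:ℝ) < p.natDegree := by
    rw [← hfr]; exact_mod_cast (finrank_pos : 0 < finrank ℚ K)
  have hD' : finrank ℚ K * Real.log (δ * finrank ℚ K) ≤ NL (aeval α (derivative (minpoly ℤ α))) := by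
    rw [hdisc, hfr, ← Real.log_pow]
    exact Real.log_le_log (by positivity) hD
  have hexp : Real.exp (lam α) = MM p := by
    rw [← hMM, Real.exp_log (by linarith)]
  have key : ∀ x : ℝ, x ≤ lam α → 1 + x ≤ MM p := by
    intro x hx
    have h3 := Real.add_one_le_exp x
    have h4 := Real.exp_le_exp.mpr hx
    linarith
  refine ⟨key _ (h1 K α hα h0 hroot hc hunit δ hδ0 hδ1 hD'), ?_⟩
  apply key
  refine h2 K α hα h0 hroot hc hunit B ?_ δ hδ0 hδ1 hD'
  intro q hq hqB σ τ hστ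
  have h5 : (σ α) ^ q = (τ α) ^ q := by
    have : σ (α ^ q) = τ (α ^ q) := hστ
    rwa [map_pow, map_pow] at this
  by_contra hne
  have hσ : aeval (σ α) p = 0 := by rw [← map_aevalZ, hpα, map_zero]
  have hτ : aeval (τ α) p = 0 := by rw [← map_aevalZ, hpα, map_zero]
  exact hqB (hB q hq (σ α) (τ α) hσ hτ (fun h => hne (hc h)) h5)

theorem final : ∃ c : ℝ, 0 < c ∧ ∀ (f : ℤ[X]) (δ : ℝ) (B : Finset ℕ), Irreducible f → 1 < MM f →
    0 < δ → δ ≤ 1 → (δ * f.natDegree) ^ f.natDegree ≤ |(f.discr : ℝ)| → DegIn f B →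
    1 + c * max (δ ^ 167) ((Real.log (Real.log (16 / δ) + B.card) / (Real.log (16 / δ) + B.card)) ^ 3)
      ≤ MM f := by
  obtain ⟨c1, hc1, hc1', h1⟩ := gen_field
  obtain ⟨c2, hc2, hc2', h2⟩ := nd_field
  refine ⟨min c1 c2, lt_min hc1 hc2, ?_⟩
  intro f δ B hf hM hδ0 hδ1 hD hB
  obtain ⟨hr0, hr1⟩ := ratio_le_one (ell_ge_one hδ0 hδ1 B.card)
  set r := Real.log (Real.log (16 / δ) + B.card) / (Real.log (16 / δ) + B.card) with hr
  have hc0 : 0 < min c1 c2 := lt_min hc1 hc2
  have hcle1 : min c1 c2 ≤ c1 := min_le_left _ _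
  have hcle2 : min c1 c2 ≤ c2 := min_le_right _ _
  have hδk0 : 0 < δ ^ 167 := by positivity
  have hδk : δ ^ 167 ≤ 1 := pow_le_one₀ hδ0.le hδ1
  have hrk0 : 0 ≤ r ^ 3 := by positivity
  have hrk : r ^ 3 ≤ 1 := pow_le_one₀ hr0 hr1
  have hbig : 2 ≤ MM f → 1 + min c1 c2 * max (δ ^ 167) (r ^ 3) ≤ MM f := by
    intro h
    have h3 : min c1 c2 ≤ 1 := hcle1.trans hc1'
    have h4 : max (δ ^ 167) (r ^ 3) ≤ 1 := max_le hδk hrk
    have h5 : min c1 c2 * max (δ ^ 167) (r ^ 3) ≤ 1 * 1 :=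
      mul_le_mul h3 h4 (le_trans hrk0 (le_max_right _ _)) (by norm_num)
    linarith
  have hweak : ∀ g : ℤ[X], (1 + c1 * δ ^ 167 ≤ MM g ∧ 1 + c2 * r ^ 3 ≤ MM g) →
      1 + min c1 c2 * max (δ ^ 167) (r ^ 3) ≤ MM g := by
    rintro g ⟨ha, hb⟩
    rw [mul_max_of_nonneg _ _ hc0.le, ← le_sub_iff_add_le']
    apply max_le
    · have := mul_le_mul_of_nonneg_right hcle1 hδk0.le
      linarith
    · have := mul_le_mul_of_nonneg_right hcle2 hrk0
      linarith
  by_cases hlc : |f.leadingCoeff| = 1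
  · by_cases hcc : |f.coeff 0| = 1
    · rcases (abs_eq (by norm_num : (0:ℤ) ≤ 1)).mp hlc with h | h
      · exact hweak f (monic_case h1 h2 f hf h hcc hM δ hδ0 hδ1 hD B hB)
      · have hdeg : 0 < f.degree := by
          rw [← natDegree_pos_iff_degree_pos]
          rcases Nat.eq_zero_or_pos f.natDegree with h0 | h0
          · exfalso
            rw [eq_C_of_natDegree_eq_zero h0] at hM hcc
            rw [MM, Polynomial.map_C, mahlerMeasure_const] at hM
            rw [coeff_C_zero] at hcc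
            have h3 : ‖(Int.castRingHom ℂ) (f.coeff 0)‖ = 1 := by
              rw [eq_intCast, Complex.norm_intCast]
              exact_mod_cast hcc
            rw [h3] at hM
            exact lt_irrefl _ hM
          · exact h0
        have h3 := monic_case h1 h2 (-f) (by simpa using (irreducible_units_mul (-1 : ℤ[X]ˣ)).mpr hf) (by
            rw [Monic, leadingCoeff_neg, h]; norm_num) (by rw [coeff_neg, abs_neg]; exact hcc)
            (by rwa [MM_neg]) δ hδ0 hδ1 (by
              rw [natDegree_neg]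
              refine hD.trans (le_of_eq ?_)
              have := abs_discr_neg f hdeg
              exact_mod_cast this.symm) B (by
              intro q hq z w hz hw
              rw [map_neg, neg_eq_zero] at hz hw
              exact hB q hq z w hz hw)
        rw [MM_neg] at h3
        exact hweak f h3
    · by_cases h0 : f.coeff 0 = 0
      · exfalso
        obtain ⟨u, hu⟩ := X_dvd_iff.mpr h0
        have h3 : IsUnit u := by
          rcases hf.isUnit_or_isUnit hu with h | h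
          · exact absurd h not_isUnit_X
          · exact h
        rw [hu, MM_mul, MM_unit h3, mul_one, MM, Polynomial.map_X] at hM
        have h4 : (X : ℂ[X]).mahlerMeasure = 1 := by
          have := mahlerMeasure_X_sub_C 0
          rw [C_0, sub_zero] at this
          rw [this]; simp
        rw [h4] at hM
        exact lt_irrefl _ hM
      · apply hbig
        have h1 : 1 ≤ |f.coeff 0| := Int.one_le_abs h0
        have h2 : 2 ≤ |f.coeff 0| := by omega
        have h3 := coeff_zero_le_MM f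
        have h4 : (2:ℝ) ≤ |(f.coeff 0 : ℝ)| := by exact_mod_cast h2
        linarith
  · apply hbig
    have h1 : 1 ≤ |f.leadingCoeff| := Int.one_le_abs (leadingCoeff_ne_zero.mpr hf.ne_zero)
    have h2 : 2 ≤ |f.leadingCoeff| := by omega
    have h3 := leadingCoeff_le_MM f
    have h4 : (2:ℝ) ≤ |(f.leadingCoeff : ℝ)| := by exact_mod_cast h2
    linarith

end Pool.Agent.W666.DL
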